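import Pool.Agent.H.MP_56bf04_lc.Hard

namespace Pool.Agent.H.MP_56bf04_lc
open Function Classical Pool.Agent.Lib.PR Encodable

theorem dec_fin {α : Type} [Encodable α] [DecidableEq α] {n : ℕ} {s : Finset α} :
    decode n = some s ↔ ∃ l : List α, decode n = some l ∧ l.Nodup ∧ l.toFinset = s := by
  show Option.bind (Option.bind (Option.map _ (decode (α := List α) n)) _) _ = _ ↔ _
  cases decode (α := List α) n with
  | none => simp
  | some l =>
    simp only [Option.map_some, Option.bind_some, Option.some.injEq, exists_eq_left']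
    split_ifs with h
    · have h : l.Nodup := h
      simp only [Option.bind_some, comp, Option.some.injEq, h, true_and]
      rw [← List.toFinset_eq h]; rfl
    · simp [show ¬ l.Nodup from h]

theorem dec_prod {α β : Type} [Encodable α] [Encodable β] {n : ℕ} {p : α × β} :
    decode n = some p ↔ decode n.unpair.1 = some p.1 ∧ decode n.unpair.2 = some p.2 := by
  rw [decode_prod_val]
  cases decode (α := α) n.unpair.1 <;> cases decode (α := β) n.unpair.2 <;> simp [Prod.ext_iff]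

abbrev PF := (Finset (ℕ × ℕ × ℕ) × ℕ × Finset ℕ) × (Finset (ℕ × (Option ℕ × Option ℕ) × ℕ) × ℕ × Finset ℕ)

def toF (l : PL) : PF := ((l.1.1.toFinset, l.1.2.1, l.1.2.2.toFinset), l.2.1.toFinset, l.2.2.1, l.2.2.2.toFinset)

def dL (n : ℕ) : Option PL := @decode PL Primcodable.toEncodable n

theorem dec_PF {n : ℕ} {p : PF} : decode n = some p ↔ ∃ l, dL n = some l ∧ ND l ∧ toF l = p := by
  have : dL n = decode n := rfl
  simp only [this, dec_prod, dec_fin, ND, toF, Prod.ext_iff]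
  constructor
  · rintro ⟨⟨⟨a, a1, a2, a3⟩, e, b, b1, b2, b3⟩, ⟨c, c1, c2, c3⟩, f, d, d1, d2, d3⟩
    exact ⟨((a, _, b), c, _, d), ⟨⟨a1, e, b1⟩, c1, f, d1⟩, ⟨a2, b2, c2, d2⟩, ⟨a3, rfl, b3⟩, c3, rfl, d3⟩
  · rintro ⟨⟨⟨a, _, b⟩, c, _, d⟩, ⟨⟨a1, e, b1⟩, c1, f, d1⟩, ⟨a2, b2, c2, d2⟩, ⟨a3, rfl, b3⟩, c3, rfl, d3⟩
    exact ⟨⟨⟨a, a1, a2, a3⟩, e, b, b1, b2, b3⟩, ⟨c, c1, c2, c3⟩, f, d, d1, d2, d3⟩

theorem nfa_acc {α : Type} [DecidableEq α] (T : List (ℕ × α × ℕ) × ℕ × List ℕ) (w : List α) :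
    w ∈ (⟨fun q a => {q' | (q, a, q') ∈ T.1.toFinset}, {T.2.1}, (T.2.2.toFinset : Set ℕ)⟩ : NFA α ℕ).accepts ↔ acc T w := by
  have : ∀ S p, p ∈ (⟨fun q a => {q' | (q, a, q') ∈ T.1.toFinset}, {T.2.1}, (T.2.2.toFinset : Set ℕ)⟩ :
      NFA α ℕ).evalFrom S w ↔ ∃ q ∈ S, rch T.1 q w p := by
    induction w with
    | nil => simp [rch]
    | cons a w ih =>
      intro S p
      rw [NFA.evalFrom_cons, ih]
      simp only [NFA.mem_stepSet, rch, Set.mem_ofPred_eq, List.mem_toFinset]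
      tauto
  simp only [NFA.mem_accepts, acc, this]
  simp

attribute [local irreducible] Primrec Computable

@[fun_prop] theorem p_nodup {α β : Type} [Primcodable α] [Primcodable β] {l : α → List β} (h : Primrec l) :
    Primrec fun a => cd (l a).Nodup :=
  Primrec.of_eq (f := fun a => cd (∀ j < (l a).length, ∀ i < j, (l a)[i]? ≠ (l a)[j]?)) (by fun_prop) fun a => by
    rw [List.nodup_iff_getElem?_ne_getElem?]
    exact congrArg cd (propext ⟨fun h i j a b => h j b i a, fun h j b i a => h i j a b⟩)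

def Vd (n : ℕ) : Prop := ∃ l, dL n = some l ∧ ND l ∧ Eqv (dom l) (rel l)

def EE (n m : ℕ) : Prop := (¬ Vd n ∧ ¬ Vd m) ∨ ∃ l k, dL n = some l ∧ dL m = some k ∧ (ND l ∧ Eqv (dom l) (rel l)) ∧
  (ND k ∧ Eqv (dom k) (rel k)) ∧ Iso (dom l) (rel l) (dom k) (rel k)

theorem main : (∃ P : ℕ × ℕ × ℕ → Prop, ComputablePred P ∧ ∀ x y, EE x y ↔ ∀ t, P (x, y, t)) ∧
    ∀ R : ℕ → ℕ → Prop, Equivalence R →
      (∃ P : ℕ × ℕ × ℕ → Prop, ComputablePred P ∧ ∀ x y, R x y ↔ ∀ t, P (x, y, t)) →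
      ∃ f : ℕ → ℕ, Computable f ∧ ∀ x y, R x y ↔ EE (f x) (f y) := by
  constructor
  · let L : ℕ → PL := fun n => (dL n).getD default
    have hL : Primrec L := by simp only [L, dL]; fun_prop
    have hV : ∀ n, Vd n ↔ (dL n).isSome = true ∧ ND (L n) ∧ Eqv (dom (L n)) (rel (L n)) := fun n => by
      simp only [Vd, L]; cases dL n <;> simp
    have pV : Primrec fun n => cd (Vd n) := by
      have := p_good hL
      simp only [hV, ND, dL]; fun_prop
    refine ⟨fun z => (Vd z.1 ↔ Vd z.2.1) ∧ (Vd z.1 → (Cnt (dom (L z.1)) (rel (L z.1)) z.2.2.unpair.1 z.2.2.unpair.2 ↔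
      Cnt (dom (L z.2.1)) (rel (L z.2.1)) z.2.2.unpair.1 z.2.2.unpair.2)), PrimrecPred.computablePred (pred
        (p_dand (p_diff (pV.comp .fst) (pV.comp (by fun_prop))) (p_dimp (pV.comp .fst)
          (p_diff (p_cnt (by fun_prop) (by fun_prop) (by fun_prop))
            (p_cnt (by fun_prop) (by fun_prop) (by fun_prop)))))), fun x y => ⟨?_, fun h => ?_⟩⟩
    · rintro (⟨a, b⟩ | ⟨l, k, a, b, c, d, e⟩) t
      · simp [a, b]
      · simp only [L, a, b, Option.getD_some]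
        exact ⟨iff_of_true ⟨l, a, c⟩ ⟨k, b, d⟩, fun _ => (iso_iff c.2 d.2).1 e _ _⟩
    · by_cases v : Vd x
      · obtain ⟨k, b, d⟩ := (h 0).1.1 v
        have := fun t => (h t).2 v
        obtain ⟨l, a, c⟩ := v
        simp only [L, a, b, Option.getD_some] at this
        exact .inr ⟨l, k, a, b, c, d, (iso_iff c.2 d.2).2 fun i j => by simpa using this (i.pair j)⟩
      · exact .inl ⟨v, mt (h 0).1.2 v⟩
  · rintro R hR ⟨P, hP, h⟩
    obtain ⟨f, f1, f2⟩ := col hR hP h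
    obtain ⟨L, L1, L2, L3⟩ := hard f1
    have e : ∀ l, dL (@encode PL Primcodable.toEncodable l) = some l := fun l => encodek l
    refine ⟨_, Computable.encode.comp L1, fun x y => (f2 x y).trans ((L3 x y).trans
      ⟨fun k => .inr ⟨_, _, e _, e _, L2 x, L2 y, k⟩, ?_⟩)⟩
    rintro (⟨a, -⟩ | ⟨l, k, a, b, -, -, c⟩)
    · exact (a ⟨_, e _, L2 x⟩).elim
    · rw [e] at a b; cases a; cases b; exact c

end Pool.Agent.H.MP_56bf04_lc
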