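import Pool.Agent.Lib.helper13.PR

namespace Pool.Agent.H.MP_56bf04_lc
open Function Classical Pool.Agent.Lib.PR

attribute [local irreducible] Primrec Computable

theorem re_ex {α : Type} [Primcodable α] {Q : α × ℕ → Prop} (h : ComputablePred Q) : REPred fun a => ∃ t, Q (a, t) := by
  obtain ⟨_, h⟩ := h
  refine (Partrec.rfind (p := fun a n => Part.some (decide (Q (a, n)))) h.partrec.to₂).dom_re.of_eq fun a => ?_
  exact Nat.rfind_dom.trans
    ⟨fun ⟨n, k, _⟩ => ⟨n, by simpa using k⟩, fun ⟨n, k⟩ => ⟨n, by simpa using k, fun _ => trivial⟩⟩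

theorem col {R : ℕ → ℕ → Prop} (hR : Equivalence R) {P : ℕ × ℕ × ℕ → Prop} (hP : ComputablePred P)
    (h : ∀ x y, R x y ↔ ∀ t, P (x, y, t)) : ∃ f : ℕ × ℕ → Bool, Computable f ∧ ∀ x y, R x y ↔ ∀ s, f (x, s) = f (y, s) := by
  obtain ⟨N, N1, N2, N3, N4⟩ := re_bool (p := fun z : ℕ × ℕ => ¬ R z.1 z.2)
    ((re_ex (Q := fun z : (ℕ × ℕ) × ℕ => ¬ P (z.1.1, z.1.2, z.2)) (by
      obtain ⟨_, k⟩ := hP.not
      exact ⟨_, k.comp (g := fun z : (ℕ × ℕ) × ℕ => (z.1.1, z.1.2, z.2)) (by fun_prop)⟩)).of_eq fun z => by simp [h])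
  let ini : ℕ → List ℕ × List ℕ := fun s => bif N (s.unpair.1, s.unpair.2.unpair.1) s.unpair.2.unpair.2 then
    ([s.unpair.1], [s.unpair.2.unpair.1]) else ([], [])
  let ok : ℕ × List ℕ → ℕ → Bool := fun z t => z.2.all fun u => N (z.1, u) t
  let st : ℕ × List ℕ × List ℕ → Part (List ℕ × List ℕ) := fun z =>
    (Nat.rfind fun t => Part.some (ok (z.1, z.2.1) t || ok (z.1, z.2.2) t)).map fun t =>
      bif ok (z.1, z.2.1) t then (z.2.1, z.1 :: z.2.2) else (z.1 :: z.2.1, z.2.2)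
  let Gp : ℕ × ℕ → Part (List ℕ × List ℕ) := fun z =>
    Nat.rec (Part.some (ini z.1)) (fun y I => I.bind fun i => st (y, i)) z.2
  have pst : Partrec st := (Partrec.rfind (Computable.partrec (f := fun p : (ℕ × List ℕ × List ℕ) × ℕ =>
    ok (p.1.1, p.1.2.1) p.2 || ok (p.1.1, p.1.2.2) p.2) (c_prim (by simp only [ok]; fun_prop))).to₂).map
    (Computable.to₂ (f := fun p : (ℕ × List ℕ × List ℕ) × ℕ => bif ok (p.1.1, p.1.2.1) p.2 then
      (p.1.2.1, p.1.1 :: p.1.2.2) else (p.1.1 :: p.1.2.1, p.1.2.2)) (c_prim (by simp only [ok]; fun_prop)))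
  have pG : Partrec Gp := Partrec.nat_rec Computable.snd (Computable.partrec (f := fun z : ℕ × ℕ => ini z.1)
    (c_prim (by simp only [ini]; fun_prop))) (pst.comp Computable.snd).to₂
  have un : ∀ y (U : List ℕ), (∀ u ∈ U, ¬ R y u) → ∃ t, ok (y, U) t = true := fun y U => by
    simp only [ok, List.all_eq_true]
    induction U with
    | nil => simp
    | cons u U ih =>
      intro k
      obtain ⟨t, a⟩ := ih fun v e => k v (.tail _ e)
      obtain ⟨t', b⟩ := N4 (y, u) (k u (.head _))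
      exact ⟨max t t', List.forall_mem_cons.2 ⟨N3 _ _ _ (le_max_right ..) b,
        fun v e => N3 _ _ _ (le_max_left ..) (a v e)⟩⟩
  have tot : ∀ z : ℕ × ℕ, ∃ G ∈ Gp z, (∀ u ∈ G.1, ∀ v ∈ G.2, ¬ R u v) := fun ⟨s, m⟩ => by
    induction m with
    | zero =>
      refine ⟨_, Part.mem_some _, ?_⟩
      simp only [ini]
      cases e : N _ _
      · simp
      · simpa using N2 _ _ e
    | succ m ih =>
      obtain ⟨G, a, b⟩ := ih
      have : ∃ t, (ok (m, G.1) t || ok (m, G.2) t) = true := by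
        by_cases k : ∀ u ∈ G.1, ¬ R m u
        · exact (un m _ k).imp fun t e => by simp [e]
        · push Not at k
          obtain ⟨u, k, l⟩ := k
          exact (un m G.2 fun v c d => b u k v c (hR.trans (hR.symm l) d)).imp fun t e => by simp [e]
      refine ⟨_, Part.mem_bind a (Part.mem_map _ (a := Nat.find this) (Nat.mem_rfind.2 ⟨by simpa using Nat.find_spec this,
        fun k => by simpa using Nat.find_min this k⟩)), ?_⟩
      have k := Nat.find_spec this
      cases e : ok (m, G.1) (Nat.find this)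
      · rw [e, Bool.false_or] at k
        exact List.forall_mem_cons.2 ⟨fun v c => N2 _ _ (List.all_eq_true.1 k v c), b⟩
      · exact fun u c => List.forall_mem_cons.2 ⟨fun d => N2 _ _ (List.all_eq_true.1 e u c) (hR.symm d), b u c⟩
  choose G G1 G2 using tot
  have cG : Computable G := pG.of_eq_tot G1
  have G3 : ∀ s m, G (s, m + 1) = ((G (s, m)).1, m :: (G (s, m)).2) ∨ G (s, m + 1) = (m :: (G (s, m)).1, (G (s, m)).2) :=
    fun s m => by
      obtain ⟨a, b, c⟩ := Part.mem_bind_iff.1 (G1 (s, m + 1))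
      obtain rfl := Part.mem_unique b (G1 (s, m))
      obtain ⟨t, -, e⟩ := (Part.mem_map_iff _).1 c
      rw [← e]
      cases ok _ t <;> simp
  have G4 : ∀ s m k, m ≤ k → (G (s, m)).1 ⊆ (G (s, k)).1 ∧ (G (s, m)).2 ⊆ (G (s, k)).2 := fun s m k e => by
    induction e with
    | refl => simp
    | step _ ih => rcases G3 s _ with e | e <;> rw [e] <;> simp [ih, List.subset_cons_of_subset]
  have G5 : ∀ s x, x ∉ (G (s, x + 1)).1 → x ∈ (G (s, x + 1)).2 := fun s x => by
    rcases G3 s x with e | e <;> rw [e] <;> simp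
  refine ⟨fun z => cd (z.1 ∈ (G (z.2, z.1 + 1)).1), (c_prim (f := fun p : ℕ × List ℕ => cd (p.1 ∈ p.2))
    (by fun_prop)).comp (g := fun z : ℕ × ℕ => (z.1, (G (z.2, z.1 + 1)).1)) (by fun_prop), fun x y => ⟨fun r s => ?_,
      fun k => by_contra fun n => ?_⟩⟩
  · have : ∀ x y, R x y → x ∈ (G (s, x + 1)).1 → y ∈ (G (s, y + 1)).1 := fun x y r a => by_contra fun n =>
      G2 (s, max (x + 1) (y + 1)) x ((G4 _ _ _ (le_max_left ..)).1 a) y ((G4 _ _ _ (le_max_right ..)).2 (G5 _ _ n)) r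
    rw [Bool.eq_iff_iff, cd_true, cd_true]
    exact ⟨this x y r, this y x (hR.symm r)⟩
  · obtain ⟨t, e⟩ := N4 (x, y) n
    have k := k (x.pair (y.pair t))
    have z : G (x.pair (y.pair t), 0) = ([x], [y]) := by
      rw [Part.mem_some_iff.1 (G1 (_, 0))]; simp [ini, e]
    rw [Bool.eq_iff_iff, cd_true, cd_true] at k
    exact G2 _ y (k.1 ((G4 _ _ _ (Nat.zero_le _)).1 (by simp [z]))) y ((G4 _ _ _ (Nat.zero_le _)).2 (by simp [z]))
      (hR.refl y)

end Pool.Agent.H.MP_56bf04_lc
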