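import Mathlib

namespace Pool.Agent.H.MP_56bf04_lc
open Function

variable {W : Type}

def Eqv (D : Set W) (r : W → W → Prop) : Prop := (∀ u ∈ D, r u u) ∧ (∀ u ∈ D, ∀ v ∈ D, r u v → r v u) ∧
  ∀ u ∈ D, ∀ v ∈ D, ∀ w ∈ D, r u v → r v w → r u w

def Iso (D : Set W) (r : W → W → Prop) (D' : Set W) (r' : W → W → Prop) : Prop :=
  ∃ f : W → W, Set.BijOn f D D' ∧ ∀ u ∈ D, ∀ v ∈ D, (r u v ↔ r' (f u) (f v))

def Cnt (D : Set W) (r : W → W → Prop) (k j : ℕ) : Prop := ∃ x : Fin j → W,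
  (∀ i, x i ∈ D ∧ {y | y ∈ D ∧ r (x i) y}.ncard = k) ∧ ∀ i i', i ≠ i' → ¬ r (x i) (x i')

theorem equiv_of_inj {α β : Type} [Countable α] [Countable β]
    (h : ∀ j, (∃ f : Fin j → α, Injective f) ↔ ∃ f : Fin j → β, Injective f) : Nonempty (α ≃ β) := by
  have key : ∀ {α β : Type}, (∀ j, (∃ f : Fin j → β, Injective f) → ∃ f : Fin j → α, Injective f) → Finite α →
      Finite β ∧ Nat.card β ≤ Nat.card α := fun {α β} h a => by
    have : Finite β := by
      by_contra n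
      have := not_finite_iff_infinite.1 n
      obtain ⟨f, e⟩ := h (Nat.card α + 1) ⟨_, (Infinite.natEmbedding β).injective.comp Fin.val_injective⟩
      simpa using Nat.card_le_card_of_injective f e
    obtain ⟨f, e⟩ := h _ ⟨_, (Finite.equivFin β).symm.injective⟩
    exact ⟨this, by simpa using Nat.card_le_card_of_injective f e⟩
  by_cases a : Finite α
  · obtain ⟨b, e⟩ := key (fun j => (h j).2) a
    exact Finite.card_eq.1 (le_antisymm (key (fun j => (h j).1) b).2 e)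
  · have b : ¬ Finite β := fun b => a (key (fun j => (h j).1) b).1
    have := not_finite_iff_infinite.1 a
    have := not_finite_iff_infinite.1 b
    exact nonempty_equiv_of_countable

theorem equiv_of_ncard [Countable W] {s t : Set W} (h : s.ncard = t.ncard) (a : s.Nonempty) (b : t.Nonempty) :
    Nonempty (s ≃ t) := by
  by_cases f : s.Finite
  · have g : t.Finite := Set.finite_of_ncard_ne_zero (h ▸ ((Set.ncard_pos f).2 a).ne')
    have := f.to_subtype
    have := g.to_subtype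
    exact Finite.card_eq.1 h
  · have g : t.Infinite := fun g => f (Set.finite_of_ncard_ne_zero (h ▸ ((Set.ncard_pos g).2 b).ne'))
    have := Set.infinite_coe_iff.2 f
    have := g.to_subtype
    exact nonempty_equiv_of_countable

def std {D : Set W} {r : W → W → Prop} (h : Eqv D r) : Setoid D :=
  ⟨fun a b => r a b, fun a => h.1 a a.2, fun {a b} => h.2.1 a a.2 b b.2, fun {a b c} => h.2.2 a a.2 b b.2 c c.2⟩

def cls {D : Set W} {r : W → W → Prop} (h : Eqv D r) (q : Quotient (std h)) : Set W :=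
  {y | ∃ e : y ∈ D, Quotient.mk _ ⟨y, e⟩ = q}

theorem cls_mk {D : Set W} {r : W → W → Prop} (h : Eqv D r) (x : D) : cls h (.mk _ x) = {y | y ∈ D ∧ r x y} := by
  ext y
  exact ⟨fun ⟨e, k⟩ => ⟨e, Quotient.exact k.symm⟩, fun ⟨e, k⟩ => ⟨e, (Quotient.sound (s := std h) (b := ⟨y, e⟩) k).symm⟩⟩

theorem cnt_iff {D : Set W} {r : W → W → Prop} (h : Eqv D r) (k j) :
    Cnt D r k j ↔ ∃ f : Fin j → {q // (cls h q).ncard = k}, Injective f := by
  constructor
  · rintro ⟨x, a, b⟩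
    exact ⟨fun i => ⟨.mk _ ⟨x i, (a i).1⟩, by rw [cls_mk]; exact (a i).2⟩, fun i i' e => by_contra fun n =>
      b i i' n (Quotient.exact (congrArg Subtype.val e))⟩
  · rintro ⟨f, e⟩
    refine ⟨fun i => (f i).1.out, fun i => ⟨(f i).1.out.2, by rw [← cls_mk h, Quotient.out_eq]; exact (f i).2⟩,
      fun i i' n k => n (e (Subtype.ext ?_))⟩
    rw [← (f i).1.out_eq, ← (f i').1.out_eq]
    exact Quotient.sound k

theorem iso_iff [Countable W] {D D' : Set W} {r r' : W → W → Prop} (h : Eqv D r) (h' : Eqv D' r') :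
    Iso D r D' r' ↔ ∀ k j, Cnt D r k j ↔ Cnt D' r' k j := by
  constructor
  · rintro ⟨f, a, b⟩ k j
    have c : ∀ x ∈ D, {y | y ∈ D' ∧ r' (f x) y}.ncard = {y | y ∈ D ∧ r x y}.ncard := fun x e => by
      rw [← Set.InjOn.ncard_image (a.injOn.mono (s₁ := {y | y ∈ D ∧ r x y}) fun y e => e.1)]
      congr 1
      ext y
      exact ⟨fun ⟨k, l⟩ => let ⟨z, m, n⟩ := a.surjOn k; ⟨z, ⟨m, (b x e z m).2 (n ▸ l)⟩, n⟩,
        fun ⟨z, ⟨m, n⟩, l⟩ => l ▸ ⟨a.mapsTo m, (b x e z m).1 n⟩⟩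
    constructor
    · rintro ⟨x, c1, c2⟩
      exact ⟨fun i => f (x i), fun i => ⟨a.mapsTo (c1 i).1, (c _ (c1 i).1).trans (c1 i).2⟩,
        fun i i' n k => c2 i i' n ((b _ (c1 i).1 _ (c1 i').1).2 k)⟩
    · rintro ⟨x, c1, c2⟩
      choose y y1 y2 using fun i => a.surjOn (c1 i).1
      exact ⟨y, fun i => ⟨y1 i, by rw [← c _ (y1 i), y2]; exact (c1 i).2⟩,
        fun i i' n k => c2 i i' n (y2 i ▸ y2 i' ▸ (b _ (y1 i) _ (y1 i')).1 k)⟩
  · intro H
    let e : Quotient (std h) ≃ Quotient (std h') := Equiv.ofFiberEquiv (f := fun q => (cls h q).ncard)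
      (g := fun q => (cls h' q).ncard) fun k =>
      (equiv_of_inj fun j => by rw [← cnt_iff, ← cnt_iff]; exact H k j).some
    have e1 : ∀ q, (cls h' (e q)).ncard = (cls h q).ncard := Equiv.ofFiberEquiv_map (g := fun q => (cls h' q).ncard) _
    have ne : ∀ {D r} (h : Eqv D r) q, (cls (W := W) h q).Nonempty := fun h q => ⟨q.out, q.out.2, q.out_eq⟩
    have cv : ∀ {D r} (h : Eqv D r) q, cls (W := W) h q ≃ {x : D // Quotient.mk (std h) x = q} := fun h q =>
      ⟨fun y => ⟨⟨y.1, y.2.1⟩, y.2.2⟩, fun y => ⟨y.1.1, y.1.2, y.2⟩, fun _ => rfl, fun _ => rfl⟩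
    let g : D ≃ D' := Equiv.ofFiberEquiv (f := fun x => e (Quotient.mk _ x)) (g := Quotient.mk (std h')) fun q =>
      ((Equiv.subtypeEquivRight fun x => e.apply_eq_iff_eq_symm_apply).trans (cv h _).symm).trans
        ((equiv_of_ncard (by rw [← e1, e.apply_symm_apply]) (ne h _) (ne h' q)).some.trans (cv h' q))
    have g1 : ∀ x, Quotient.mk (std h') (g x) = e (Quotient.mk _ x) := Equiv.ofFiberEquiv_map _
    classical
    refine ⟨fun x => if k : x ∈ D then g ⟨x, k⟩ else x, ⟨fun x k => by simp [k], fun x k y l m => ?_, fun y k => ?_⟩,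
      fun u k v l => ?_⟩
    · simpa [k, l, Subtype.val_inj] using m
    · exact ⟨g.symm ⟨y, k⟩, (g.symm ⟨y, k⟩).2, by simp⟩
    · simp only [k, l, dif_pos]
      exact (Quotient.eq (r := std h) (x := ⟨u, k⟩) (y := ⟨v, l⟩)).symm.trans
        (e.injective.eq_iff.symm.trans (by rw [← g1, ← g1]; exact Quotient.eq))

end Pool.Agent.H.MP_56bf04_lc
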