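import Pool.Agent.H.MP_56bf04_lc.Reg
import Pool.Agent.H.MP_56bf04_lc.Iso
import Pool.Agent.Lib.helper13.PR

namespace Pool.Agent.H.MP_56bf04_lc
open Function Classical Pool.Agent.Lib.PR

abbrev PL := (List (ℕ × ℕ × ℕ) × ℕ × List ℕ) × (List (ℕ × (Option ℕ × Option ℕ) × ℕ) × ℕ × List ℕ)

def conv (u v : List ℕ) : List (Option ℕ × Option ℕ) :=
  (List.range (max u.length v.length)).map fun i => (u[i]?, v[i]?)
def dom (l : PL) : Set (List ℕ) := {u | acc l.1 u}
def rel (l : PL) (u v : List ℕ) : Prop := acc l.2 (conv u v)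
def cl (l : PL) (u : List ℕ) : Set (List ℕ) := {y | y ∈ dom l ∧ rel l u y}
def nb (l : PL) : ℕ := 2 ^ (2 * 2 ^ (l.1.1.length + l.2.1.length + 1))
noncomputable def mg (t : Option ℕ × Option ℕ) : Option (Option ℕ × Option ℕ) := if t = (none, none) then none else some t
def DF (l : PL) (x : ℕ → Option ℕ) : Prop := ∃ w, x = wd w ∧ acc l.1 w
def RF (l : PL) (x y : ℕ → Option ℕ) : Prop := ∃ w, (fun i => mg (x i, y i)) = wd w ∧ acc l.2 w

variable {l : PL} {u v : List ℕ} {A : Type}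

theorem DF_wd : DF l (wd u) ↔ u ∈ dom l := ⟨fun ⟨_, a, b⟩ => wd_inj a ▸ b, fun h => ⟨_, rfl, h⟩⟩

theorem RF_wd : RF l (wd u) (wd v) ↔ rel l u v := by
  have : (fun i => mg (wd u i, wd v i)) = wd (conv u v) := by
    funext i
    by_cases h : i < max u.length v.length
    · simp only [mg, wd, conv, List.getElem?_map, List.getElem?_range h, Option.map_some]
      exact if_neg (by simp; omega)
    · exact (if_pos (by simpa [wd] using h)).trans (List.getElem?_eq_none (by simpa [conv] using h)).symm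
  rw [RF, this]
  exact ⟨fun ⟨_, a, b⟩ => by rwa [rel, wd_inj a], fun h => ⟨_, rfl, h⟩⟩

theorem regD (l : PL) (f : A → Option ℕ) : Reg (nb l) fun x => DF l fun t => f (x t) :=
  (Reg.acc l.1 (by omega)).comap f

theorem regR (l : PL) (f g : A → Option ℕ) : Reg (nb l) fun x => RF l (fun t => f (x t)) fun t => g (x t) :=
  (Reg.acc l.2 (by omega)).comap fun a => mg (f a, g a)

def GE (l : PL) (k : ℕ) (x : ℕ → Option ℕ) : Prop := ∃ Y : ℕ → Fin k → Option ℕ,
  (∀ p : Fin k × Fin k, p.1 ≠ p.2 → ∃ t, Y t p.1 ≠ Y t p.2) ∧ ∀ i, DF l (Y · i) ∧ RF l x (Y · i)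

def gb (n k : ℕ) : ℕ := 2 ^ ((1 * 2) ^ (k * k) * (n * n) ^ k)

theorem regGE (l : PL) (k) : Reg (gb (nb l) k) (GE l k) := by
  have := ((Reg.all fun p : Fin k × Fin k => (Reg.const (p.1 ≠ p.2)).imp
    (Reg.pos fun a : Option ℕ × (Fin k → Option ℕ) => a.2 p.1 ≠ a.2 p.2)).and
    (Reg.all fun i : Fin k => (regD l fun a => a.2 i).and (regR l (·.1) fun a => a.2 i))).ex
  simp only [Nat.card_prod, Nat.card_fin] at this
  exact this

theorem GE_wd {k} : GE l k (wd u) ↔ (cl l u).Infinite ∨ k ≤ (cl l u).ncard := by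
  constructor
  · rintro ⟨Y, a, b⟩
    choose f f1 f2 using fun i => (b i).1
    have hf : Injective f := fun i j e => by_contra fun n => let ⟨t, k⟩ := a (i, j) n
      k ((congrFun (f1 i) t).trans (e ▸ (congrFun (f1 j) t).symm))
    refine or_iff_not_imp_left.2 fun n => ?_
    simpa [Set.ncard_range_of_injective hf] using Set.ncard_le_ncard (s := Set.range f)
      (by rintro _ ⟨i, rfl⟩; exact ⟨f2 i, RF_wd.1 (f1 i ▸ (b i).2)⟩) (not_not.1 n)
  · intro h
    obtain ⟨f, a, b⟩ : ∃ f : Fin k → List ℕ, Injective f ∧ ∀ i, f i ∈ cl l u := by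
      by_cases n : (cl l u).Infinite
      · exact ⟨fun i => n.natEmbedding _ i, (Subtype.val_injective.comp (n.natEmbedding _).injective).comp
          Fin.val_injective, fun i => Subtype.prop _⟩
      · have := (not_not.1 n : Set.Finite _).to_subtype
        exact ⟨fun i => (Finite.equivFin (cl l u)).symm (i.castLE (h.resolve_left n)), (Subtype.val_injective.comp
          (Equiv.injective _)).comp (Fin.castLE_injective _), fun i => Subtype.prop _⟩
    exact ⟨fun t i => wd (f i) t, fun p n => by_contra fun e => n (a (wd_inj (funext fun t => by_contra fun k =>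
      e ⟨t, k⟩))), fun i => ⟨DF_wd.2 (b i).1, RF_wd.2 (b i).2⟩⟩

def tup (s : List A) (n : ℕ) : List (List A) := (fun W => [] :: s.flatMap fun a => W.map (a :: ·))^[n] [[]]

theorem mem_tup {s : List A} {n w} : w ∈ tup s n ↔ w.length ≤ n ∧ ∀ a ∈ w, a ∈ s := by
  induction n generalizing w with
  | zero => cases w <;> simp [tup]
  | succ n ih =>
    rw [tup, iterate_succ_apply', ← tup]
    cases w <;> simp [ih]; tauto

theorem nodup_tup {s : List A} (h : s.Nodup) (n) : (tup s n).Nodup := by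
  induction n with
  | zero => simp [tup]
  | succ n ih =>
    rw [tup, iterate_succ_apply', ← tup]
    refine List.nodup_cons.2 ⟨by simp, List.nodup_flatMap.2 ⟨fun a _ => ih.map fun _ _ e => (List.cons.inj e).2,
      h.imp fun {a b} e => ?_⟩⟩
    simp only [onFun, List.disjoint_left, List.mem_map]
    rintro _ ⟨x, -, rfl⟩ ⟨y, -, k⟩
    exact e (List.cons.inj k).1.symm

def wds (l : PL) (n : ℕ) : List (List ℕ) := tup (List.range ((l.1.1.map (·.2.1)).sum + 1)) n

theorem mem_wds {n} (h : u ∈ dom l) (k : u.length ≤ n) : u ∈ wds l n :=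
  let ⟨_, _, h⟩ := h
  mem_tup.2 ⟨k, fun a e => List.mem_range.2 (Nat.lt_succ_of_le (List.le_sum_of_mem ((rch_mem h).2 a e)))⟩

theorem inf_iff : (cl l u).Infinite ↔ ∀ m, ∃ v ∈ cl l u, m ≤ v.length := by
  constructor
  · intro h m
    by_contra n
    push Not at n
    exact h ((wds l m).finite_toSet.subset fun v e => mem_wds e.1 (n v e).le)
  · intro h f
    obtain ⟨m, k⟩ := (f.image List.length).bddAbove
    obtain ⟨v, a, b⟩ := h (m + 1)
    exact absurd (k ⟨v, a, rfl⟩) (by omega)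

def INF (l : PL) (x : ℕ → Option ℕ) : Prop := ∀ m, ∃ y, (DF l y ∧ RF l x y) ∧ ∃ t ≥ m, y t ≠ none

theorem regINF (l : PL) : Reg (2 ^ (nb l * nb l)) (INF l) :=
  ((regD l Prod.snd).and (regR l Prod.fst Prod.snd)).unb (fun m y => ∃ t ≥ m, y t ≠ none)
    fun m a b y y' ⟨t, k, e⟩ => ⟨t - a + b, by omega, by
      rwa [sp, if_neg (by omega), show t - a + b - b + a = t by omega]⟩

theorem INF_wd : INF l (wd u) ↔ (cl l u).Infinite := by
  rw [inf_iff]
  constructor
  · intro h m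
    obtain ⟨_, ⟨⟨v, rfl, a⟩, b⟩, t, c, d⟩ := h m
    exact ⟨v, ⟨a, RF_wd.1 b⟩, by simp [wd] at d; omega⟩
  · intro h m
    obtain ⟨v, a, b⟩ := h (m + 1)
    exact ⟨wd v, ⟨DF_wd.2 a.1, RF_wd.2 a.2⟩, m, le_rfl, by simp [wd]; omega⟩

def SZ (l : PL) (k : ℕ) (x : ℕ → Option ℕ) : Prop := (k = 0 ∧ INF l x) ∨ (GE l k x ∧ ¬ GE l (k + 1) x)

theorem SZ_wd {k} : SZ l k (wd u) ↔ (cl l u).ncard = k := by
  rw [SZ, INF_wd, GE_wd, GE_wd]
  by_cases h : (cl l u).Infinite
  · simp [h, h.ncard, eq_comm]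
  · simp only [h, and_false, false_or]; omega

def cb (n k j : ℕ) : ℕ := (n * (1 * 2 ^ (n * n) * (gb n k * gb n (k + 1)))) ^ j * (1 * n) ^ (j * j)

theorem cnt_short {k j} : Cnt (dom l) (rel l) k j ↔ ∃ X ∈ tup (wds l (cb (nb l) k j)) j, X.length = j ∧
    (∀ x ∈ X, x ∈ dom l ∧ (cl l x).ncard = k) ∧ ∀ i < j, ∀ i' < j, i ≠ i' → ¬ rel l (X.getD i []) (X.getD i' []) := by
  constructor
  · rintro ⟨x, a, b⟩
    have r := (Reg.all fun i : Fin j => (regD l fun a : Fin j → Option ℕ => a i).and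
      ((((Reg.const (k = 0)).and (regINF l)).or ((regGE l k).and (regGE l (k + 1)).not)).comap fun a => a i)).and
      (Reg.all fun p : Fin j × Fin j => (Reg.const (p.1 ≠ p.2)).imp (regR l (fun a => a p.1) fun a => a p.2).not)
    simp only [Nat.card_prod, Nat.card_fin] at r
    obtain ⟨y, ⟨y1, y2⟩, y3⟩ := r.short 0 x ⟨fun i => ⟨DF_wd.2 (a i).1, SZ_wd.2 (a i).2⟩,
      fun p n e => b _ _ n (RF_wd.1 e)⟩
    refine ⟨List.ofFn y, mem_tup.2 ⟨by simp, ?_⟩, by simp, ?_, fun i c i' d n e => y2 (⟨i, c⟩, ⟨i', d⟩)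
      (by simpa) (RF_wd.2 (by simpa [c, d] using e))⟩
    · simp only [List.forall_mem_ofFn_iff]
      exact fun i => mem_wds (DF_wd.1 (y1 i).1) ((y3 i).1.trans (Nat.zero_add _).le)
    · simp only [List.forall_mem_ofFn_iff]
      exact fun i => ⟨DF_wd.1 (y1 i).1, SZ_wd.1 (y1 i).2⟩
  · rintro ⟨X, -, rfl, a, b⟩
    exact ⟨X.get, fun i => a _ (by simp), fun i i' n e => b i i.2 i' i'.2 (Fin.val_ne_of_ne n) (by simpa using e)⟩

noncomputable def szc (l : PL) (u : List ℕ) : ℕ :=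
  if ∃ v ∈ wds l (u.length + 2 * (nb l * nb l)), v ∈ cl l u ∧ u.length + nb l * nb l ≤ v.length then 0 else
    ((wds l (u.length + nb l * nb l)).filter fun v => cd (v ∈ cl l u)).length

theorem szc_eq : (cl l u).ncard = szc l u := by
  have r := (regD l fun a : Fin 2 → Option ℕ => a 1).and (regR l (· 0) (· 1))
  unfold szc
  split_ifs with h
  · obtain ⟨v, -, a, b⟩ := h
    refine Set.Infinite.ncard (inf_iff.2 fun m => ?_)
    suffices ∃ v ∈ cl l u, m ≤ v.length ∧ u.length + nb l * nb l ≤ v.length from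
      let ⟨v, a, b, _⟩ := this; ⟨v, a, b⟩
    induction m with
    | zero => exact ⟨v, a, by omega, b⟩
    | succ m ih =>
      obtain ⟨v, a, b, c⟩ := ih
      obtain ⟨s, t, s1, s2, s3, -, s4, s5⟩ := r.pump (z := fun t i => wd (![u, v] i) t)
        ⟨DF_wd.2 a.1, RF_wd.2 a.2⟩ u.length
      have e : ∀ i, (fun n => sp t (fun t i => wd (![u, v] i) t) s (fun t i => wd (![u, v] i) t) n i) =
          wd ((![u, v] i).take t ++ (![u, v] i).drop s) := fun i => by
        rw [← sp_self t s _ (by fin_cases i <;> simp <;> omega)]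
        funext n; simp only [sp]; split_ifs <;> rfl
      rw [e] at s4
      rw [e, e] at s5
      refine ⟨_, ⟨DF_wd.1 s4, ?_⟩, by simp; omega, by simp; omega⟩
      simpa [List.take_of_length_le (by omega : u.length ≤ t), List.drop_of_length_le s1] using RF_wd.1 s5
  · have : ∀ v ∈ cl l u, v.length ≤ u.length + nb l * nb l := fun v a => by
      by_contra n
      obtain ⟨y, ⟨y1, y2⟩, y3⟩ := r.short (u.length + nb l * nb l) ![u, v] ⟨DF_wd.2 a.1, RF_wd.2 a.2⟩
      exact h ⟨y 1, mem_wds (DF_wd.1 y1) ((y3 1).1.trans (by omega)), ⟨DF_wd.1 y1,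
        by simpa [(y3 0).2.1 (by simp)] using RF_wd.1 y2⟩, (y3 1).2.2 (by simp; omega)⟩
    rw [← List.toFinset_card_of_nodup (List.Nodup.filter _ (l := wds _ _) (nodup_tup List.nodup_range _)),
      ← Set.ncard_coe_finset]
    congr 1
    ext v
    simpa using fun a => mem_wds a.1 (this v a)

theorem good_short : Eqv (dom l) (rel l) ↔ ∀ u ∈ wds l (nb l ^ 9), ∀ v ∈ wds l (nb l ^ 9), ∀ w ∈ wds l (nb l ^ 9),
    u ∈ dom l → v ∈ dom l → w ∈ dom l → rel l u u ∧ (rel l u v → rel l v u) ∧ (rel l u v → rel l v w → rel l u w) := by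
  refine ⟨fun h u _ v _ w _ a b c => ⟨h.1 u a, h.2.1 u a v b, h.2.2 u a v b w c⟩, fun h => ?_⟩
  suffices ∀ u v w, u ∈ dom l → v ∈ dom l → w ∈ dom l →
      rel l u u ∧ (rel l u v → rel l v u) ∧ (rel l u v → rel l v w → rel l u w) from
    ⟨fun u a => (this u u u a a a).1, fun u a v b => (this u v v a b b).2.1, fun u a v b w c => (this u v w a b c).2.2⟩
  intro u v w a b c
  by_contra n
  obtain ⟨y, ⟨y1, y2, y3, y4⟩, k⟩ := ((regD l fun a : Fin 3 → Option ℕ => a 0).and ((regD l (· 1)).and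
    ((regD l (· 2)).and ((regR l (· 0) (· 0)).and (((regR l (· 0) (· 1)).imp (regR l (· 1) (· 0))).and
    ((regR l (· 0) (· 1)).imp ((regR l (· 1) (· 2)).imp (regR l (· 0) (· 2)))))).not))).short 0 ![u, v, w]
    ⟨DF_wd.2 a, DF_wd.2 b, DF_wd.2 c, fun k => n ⟨RF_wd.1 k.1, fun e => RF_wd.1 (k.2.1 (RF_wd.2 e)),
      fun e f => RF_wd.1 (k.2.2 (RF_wd.2 e) (RF_wd.2 f))⟩⟩
  have := h _ (mem_wds (DF_wd.1 y1) ((k 0).1.trans (by ring_nf; rfl))) _
    (mem_wds (DF_wd.1 y2) ((k 1).1.trans (by ring_nf; rfl))) _ (mem_wds (DF_wd.1 y3) ((k 2).1.trans (by ring_nf; rfl)))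
    (DF_wd.1 y1) (DF_wd.1 y2) (DF_wd.1 y3)
  exact y4 ⟨RF_wd.2 this.1, fun e => RF_wd.2 (this.2.1 (RF_wd.1 e)),
    fun e f => RF_wd.2 (this.2.2 (RF_wd.1 e) (RF_wd.1 f))⟩

noncomputable def evs (T : List (ℕ × A × ℕ)) (S : List ℕ) (w : List A) : List ℕ :=
  w.foldl (fun S a => (T.filter fun t => cd (t.1 ∈ S ∧ t.2.1 = a)).map (·.2.2)) S

theorem mem_evs {T : List (ℕ × A × ℕ)} {S w p} : p ∈ evs T S w ↔ ∃ q ∈ S, rch T q w p := by
  induction w generalizing S with
  | nil => simp [evs, rch]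
  | cons a w ih =>
    rw [evs, List.foldl_cons, ← evs, ih]
    simp only [List.mem_map, List.mem_filter, cd_true, rch]
    exact ⟨fun ⟨_, ⟨⟨q, _, r⟩, ⟨a, b, rfl⟩, rfl⟩, c⟩ => ⟨q, b, r, a, c⟩,
      fun ⟨q, b, r, a, c⟩ => ⟨r, ⟨_, ⟨a, b, rfl⟩, rfl⟩, c⟩⟩

attribute [local irreducible] Primrec Computable

variable {α : Type} [Primcodable α]

@[fun_prop] theorem p_acc [Primcodable A] {T : α → List (ℕ × A × ℕ) × ℕ × List ℕ} {w : α → List A} (hT : Primrec T)
    (hw : Primrec w) : Primrec fun a => cd (acc (T a) (w a)) :=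
  Primrec.of_eq (f := fun a => cd (∃ p ∈ (T a).2.2, p ∈ evs (T a).1 [(T a).2.1] (w a))) (by unfold evs; fun_prop)
    fun a => by simp [acc, mem_evs]

@[fun_prop] theorem p_dom {l : α → PL} {w : α → List ℕ} (hT : Primrec l) (hw : Primrec w) :
    Primrec fun a => cd (w a ∈ dom (l a)) := p_acc (by fun_prop) hw

@[fun_prop] theorem p_rel {l : α → PL} {w v : α → List ℕ} (hT : Primrec l) (hw : Primrec w) (hv : Primrec v) :
    Primrec fun a => cd (rel (l a) (w a) (v a)) := by unfold rel conv; fun_prop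

@[fun_prop] theorem p_tup [Primcodable A] {s : α → List A} {n : α → ℕ} (hT : Primrec s) (hw : Primrec n) :
    Primrec fun a => tup (s a) (n a) := by unfold tup; fun_prop

@[fun_prop] theorem p_wds : Primrec fun a : PL × ℕ => wds a.1 a.2 := by unfold wds; fun_prop

@[fun_prop] theorem p_nb : Primrec nb := by unfold nb; fun_prop

@[fun_prop] theorem p_sz {l : α → PL} {w : α → List ℕ} (hT : Primrec l) (hw : Primrec w) :
    Primrec fun a => (cl (l a) (w a)).ncard := by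
  simp only [szc_eq, szc]; simp only [cl, Set.mem_ofPred_eq]; fun_prop

theorem p_cnt {l : α → PL} {k j : α → ℕ} (hT : Primrec l) (hk : Primrec k) (hj : Primrec j) :
    Primrec fun a => cd (Cnt (dom (l a)) (rel (l a)) (k a) (j a)) := by
  simp only [cnt_short, cb, gb]; fun_prop

theorem p_good {l : α → PL} (hT : Primrec l) : Primrec fun a => cd (Eqv (dom (l a)) (rel (l a))) := by
  simp only [good_short]; fun_prop

end Pool.Agent.H.MP_56bf04_lc
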