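import Pool.Agent.H.MP_56bf04_lc.WA
import Pool.Agent.H.MP_56bf04_lc.Col

namespace Pool.Agent.H.MP_56bf04_lc
open Function Classical Finset Pool.Agent.Lib.PR

attribute [local irreducible] Primrec Computable

theorem bits_lt {g : ℕ → ℕ} (h : ∀ j, g j ≤ 1) (m) : ∑ j ∈ range m, g j * 2 ^ j < 2 ^ m := by
  induction m with
  | zero => simp
  | succ m ih => rw [sum_range_succ, pow_succ]; nlinarith [h m, Nat.two_pow_pos m]

theorem bits_get {g : ℕ → ℕ} (h : ∀ j, g j ≤ 1) {i m} (e : i + 1 ≤ m) (c) :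
    (∑ j ∈ range m, g j * 2 ^ j + c * 2 ^ m) % 2 ^ (i + 1) / 2 ^ i = g i := by
  induction m, e using Nat.le_induction generalizing c with
  | base => rw [Nat.add_mul_mod_self_right, Nat.mod_eq_of_lt (bits_lt h _), sum_range_succ,
      Nat.add_mul_div_right _ _ (Nat.two_pow_pos i), Nat.div_eq_of_lt (bits_lt h i), zero_add]
  | succ m _ ih => rw [← ih (g m + 2 * c), sum_range_succ]; congr 2; ring

def nx (M k : ℕ) : ℕ := if k + 1 < 2 * M then k + 1 else M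

theorem nx_it {M} (h : 0 < M) (n) : (n < M → (nx M)^[n] 0 = n) ∧ (M ≤ n → M ≤ (nx M)^[n] 0) ∧
    (nx M)^[n] 0 % M = n % M ∧ (nx M)^[n] 0 < 2 * M := by
  induction n with
  | zero => simp; omega
  | succ n ih =>
    rw [iterate_succ_apply']
    generalize (nx M)^[n] 0 = k at *
    have : (k + 1) % M = (n + 1) % M := by rw [Nat.add_mod, ih.2.2.1, ← Nat.add_mod]
    unfold nx
    split_ifs with e
    · exact ⟨by omega, by omega, this, e⟩
    · exact ⟨by omega, by omega, by rw [← this, show k + 1 = 2 * M by omega]; simp, by omega⟩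

noncomputable def dd {A : Type} (l : List A) : List A := l.foldr (fun a r => if a ∈ r then r else a :: r) []

theorem dd_spec {A : Type} (l : List A) : (dd l).Nodup ∧ ∀ a, a ∈ dd l ↔ a ∈ l := by
  induction l with
  | nil => simp [dd]
  | cons b l ih =>
    rw [dd, List.foldr_cons, ← dd]
    split_ifs with h
    · exact ⟨ih.1, fun a => by rw [List.mem_cons, ← ih.2]; exact ⟨.inr, fun e => e.elim (· ▸ h) id⟩⟩
    · exact ⟨List.nodup_cons.2 ⟨h, ih.1⟩, fun a => by simp [ih.2]⟩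

theorem prod_rch {T U : List (ℕ × ℕ × ℕ)} {HL : List ℕ} {M} (hM : 0 < M) (h : ∀ u, u ∈ U ↔ ∃ k < 2 * M, ∃ t ∈ T,
    (t.1.pair k, t.2.1, t.2.2.pair (if t.2.1.unpair.1 ∈ HL then nx M k else k)) = u) (z p k r) (e : k < 2 * M) :
    rch U (p.pair k) z r ↔ ∃ q, rch T p z q ∧ q.pair ((nx M)^[(und z).countP (· ∈ HL)] k) = r := by
  induction z generalizing p k with
  | nil => simp [rch, und]
  | cons a z ih =>
    have n : (if a.unpair.1 ∈ HL then nx M k else k) < 2 * M := by unfold nx; split_ifs <;> omega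
    have c : (nx M)^[(und (a :: z)).countP (· ∈ HL)] k =
        (nx M)^[(und z).countP (· ∈ HL)] (if a.unpair.1 ∈ HL then nx M k else k) := by
      split_ifs with c <;> simp [und, c]
    simp only [rch, h, c]
    constructor
    · rintro ⟨_, ⟨k', -, ⟨p', a', q⟩, t, d⟩, l⟩
      simp only [Prod.mk.injEq, Nat.pair_eq_pair] at d
      obtain ⟨⟨rfl, rfl⟩, rfl, rfl⟩ := d
      obtain ⟨s, l, m⟩ := (ih _ _ n).1 l
      exact ⟨s, ⟨q, t, l⟩, m⟩
    · rintro ⟨s, ⟨q, t, l⟩, m⟩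
      exact ⟨_, ⟨k, e, _, t, rfl⟩, (ih _ _ n).2 ⟨s, l, m⟩⟩

def ND (l : PL) : Prop := l.1.1.Nodup ∧ l.1.2.2.Nodup ∧ l.2.1.Nodup ∧ l.2.2.2.Nodup

theorem hard {f : ℕ × ℕ → Bool} (hf : Computable f) : ∃ L : ℕ → PL, Computable L ∧
    (∀ x, ND (L x) ∧ Eqv (dom (L x)) (rel (L x))) ∧
    ∀ x y, (∀ s, f (x, s) = f (y, s)) ↔ Iso (dom (L x)) (rel (L x)) (dom (L y)) (rel (L y)) := by
  let cv : ℕ → ℕ := fun s => ∑ j ∈ range (s + 1), (f (j, s)).toNat * 2 ^ j + 1 * 2 ^ (s + 1)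
  have hcv : Computable cv := by
    have := Computable.nat_rec (f := fun s => s + 1) (g := fun s => 1 * 2 ^ (s + 1)) (h := fun s p : _ =>
      p.2 + (f (p.1, s)).toNat * 2 ^ p.1) (c_prim (by fun_prop)) (c_prim (by fun_prop))
      (((c_prim (f := fun p : Bool × ℕ × ℕ => p.2.2 + p.1.toNat * 2 ^ p.2.1) (by fun_prop)).comp
        (g := fun p : ℕ × ℕ × ℕ => (f (p.2.1, p.1), p.2)) (by fun_prop)).to₂)
    refine this.of_eq fun s => ?_
    have : ∀ c m, Nat.rec (motive := fun _ => ℕ) c (fun y I => I + (f (y, s)).toNat * 2 ^ y) m =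
        ∑ j ∈ range m, (f (j, s)).toNat * 2 ^ j + c := fun c m => by
      induction m with
      | zero => simp
      | succ m ih => simp only [sum_range_succ, ih]; ring
    exact this (1 * 2 ^ (s + 1)) (s + 1)
  have b1 : ∀ s j, (f (j, s)).toNat ≤ 1 := fun _ _ => Bool.toNat_le _
  have b2 : ∀ s, 2 ^ (s + 1) ≤ cv s ∧ cv s < 2 ^ (s + 2) := fun s => by
    have := bits_lt (b1 s) (s + 1); simp only [cv, pow_succ 2 (s + 1)]; omega
  have b3 : Injective cv := fun s t e => by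
    have := (Nat.pow_lt_pow_iff_right one_lt_two).1 ((b2 s).1.trans_lt (e ▸ (b2 t).2))
    have := (Nat.pow_lt_pow_iff_right one_lt_two).1 ((b2 t).1.trans_lt (e ▸ (b2 s).2))
    omega
  obtain ⟨K, hK, K1⟩ : ∃ K : ℕ → List ℕ, Computable K ∧ ∀ i k, k ∈ K i ↔ ∃ s < 2 ^ (i + 1), f (i, s) ∧ cv s = k := by
    refine ⟨_, Computable.nat_rec (f := fun i => 2 ^ (i + 1)) (g := fun _ => []) (h := fun i p : _ =>
      bif f (i, p.1) then cv p.1 :: p.2 else p.2) (c_prim (by fun_prop)) (c_prim (by fun_prop))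
      (((c_prim (f := fun p : Bool × ℕ × List ℕ => bif p.1 then p.2.1 :: p.2.2 else p.2.2) (by fun_prop)).comp
        (g := fun p : ℕ × ℕ × List ℕ => (f (p.1, p.2.1), cv p.2.1, p.2.2)) (by fun_prop)).to₂), fun i k => ?_⟩
    induction 2 ^ (i + 1) with
    | zero => simp
    | succ m ih => rw [Nat.exists_lt_succ_right, ← ih]; cases e : f (i, m) <;> simp [e]; rw [or_comm, eq_comm]
  obtain ⟨N, N1, N2, -, N4⟩ := re_bool (re_ex (Q := fun p : ℕ × ℕ => cv p.2 = p.1) ⟨_, (c_prim (f := fun p : ℕ × ℕ =>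
    decide (p.1 = p.2)) (by fun_prop)).comp (g := fun p : ℕ × ℕ => (cv p.2, p.1)) (by fun_prop)⟩)
  obtain ⟨C, X, _, _, Δ, F, c, i, h, hi, t1, t2, t3, t4⟩ := trans_re (g := fun n k => (!N n k).toNat)
    (show Primrec fun p : ℕ × ℕ => (!N p.1 p.2).toNat by fun_prop)
  obtain ⟨T, HL, T', H⟩ := struct Δ F c i h hi t1
  let β : ℕ → List ℕ → ℕ → Prop := fun x l k => k = 0 ∨ (k < 2 ^ (x + 1) ∧ k ∈ l) ∨
    (2 ^ (x + 1) ≤ k ∧ k % 2 ^ (x + 1) / 2 ^ x = 1)
  let L : ℕ × List ℕ → PL := fun x => ((dd ((List.range (2 * 2 ^ (x.1 + 1))).flatMap fun k => T.1.map fun t =>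
    (t.1.pair k, t.2.1, t.2.2.pair (if t.2.1.unpair.1 ∈ HL then nx (2 ^ (x.1 + 1)) k else k))), T.2.1.pair 0,
    dd (((List.range (2 * 2 ^ (x.1 + 1))).filter fun k => cd (β x.1 x.2 k)).flatMap fun k => T.2.2.map (·.pair k))),
    dd T', 0, [0])
  have H := fun x => H (L (x, K x)) (fun n => β x (K x) ((nx (2 ^ (x + 1)))^[n] 0)) (fun z => by
    simp only [dom, acc, L, Set.mem_ofPred_eq, (dd_spec _).2, List.mem_flatMap, List.mem_filter, List.mem_range,
      cd_true, List.mem_map]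
    have := fun r => prod_rch (T := T.1) (HL := HL) (Nat.two_pow_pos (x + 1)) (U := (L (x, K x)).1.1)
      (fun u => by simp only [L, (dd_spec _).2, List.mem_flatMap, List.mem_range, List.mem_map]) z T.2.1 0 r (by simp)
    simp only [L] at this
    simp only [this]
    constructor
    · rintro ⟨_, ⟨k, ⟨-, a⟩, p, b, rfl⟩, q, d, e⟩
      obtain ⟨rfl, rfl⟩ := Nat.pair_eq_pair.1 e
      exact ⟨⟨_, b, d⟩, a⟩
    · rintro ⟨⟨p, a, b⟩, d⟩
      exact ⟨_, ⟨_, ⟨(nx_it (Nat.two_pow_pos _) _).2.2.2, d⟩, p, a, rfl⟩, p, b, rfl⟩) (dd_spec _).2 rfl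
  have B : ∀ x s, β x (K x) ((nx (2 ^ (x + 1)))^[cv s] 0) ↔ f (x, s) := fun x s => by
    obtain ⟨a1, a2, a3, -⟩ := nx_it (Nat.two_pow_pos (x + 1)) (cv s)
    have := Nat.two_pow_pos (s + 1)
    have := Nat.two_pow_pos (x + 1)
    have := b2 s
    by_cases e : cv s < 2 ^ (x + 1)
    · have : s < 2 ^ (s + 1) := Nat.lt_of_succ_lt Nat.lt_two_pow_self
      simp only [β, a1 e, K1, b3.eq_iff]
      exact ⟨fun k => k.elim (by omega) fun k => k.elim (fun ⟨_, _, _, a, b⟩ => b ▸ a) (by omega),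
        fun k => .inr (.inl ⟨e, s, by omega, k, rfl⟩)⟩
    · have := a2 (by omega)
      have k := (Nat.pow_lt_pow_iff_right one_lt_two).1 ((not_lt.1 e).trans_lt (b2 s).2)
      have k : cv s % 2 ^ (x + 1) / 2 ^ x = _ := bits_get (b1 s) (Nat.le_of_lt_succ k) 1
      simp only [β, a3, k, Bool.toNat_eq_one]
      exact ⟨fun k => k.elim (by omega) fun k => k.elim (by omega) (·.2), fun k => .inr (.inr ⟨this, k⟩)⟩
  refine ⟨fun x => L (x, K x), (c_prim (by simp only [L, β, nx, dd]; fun_prop)).comp (Computable.id.pair hK),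
    fun x => ⟨⟨(dd_spec _).1, (dd_spec _).1, (dd_spec _).1, by simp [L]⟩, (H x).1⟩, fun x y => ?_⟩
  rw [iso_iff (H x).1 (H y).1]
  simp only [(H _).2]
  have k1 : ∀ x y, (∀ s, f (x, s) = f (y, s)) → ∀ k, (∃ w v, run Δ F c w = some v ∧
      β x (K x) ((nx (2 ^ (x + 1)))^[w.countP h] 0) ∧ code v = k) → ∃ w v, run Δ F c w = some v ∧
      β y (K y) ((nx (2 ^ (y + 1)))^[w.countP h] 0) ∧ code v = k := by
    rintro x y e _ ⟨w, ⟨m, n⟩, a, b, rfl⟩
    by_cases d : m = n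
    · subst d
      obtain ⟨k, l⟩ := (t3 w m a).1
      obtain ⟨s, l⟩ := N2 _ k (by simpa using l)
      exact ⟨w, _, a, by rw [← show cv s = w.countP h from l, B] at b ⊢; rwa [← e], rfl⟩
    · obtain ⟨w, a, b⟩ := t2 m n d
      exact ⟨w, _, a, by rw [b]; exact .inl rfl, rfl⟩
  have k2 : ∀ x y, (∀ k, (∃ w v, run Δ F c w = some v ∧
      β x (K x) ((nx (2 ^ (x + 1)))^[w.countP h] 0) ∧ code v = k) → ∃ w v, run Δ F c w = some v ∧
      β y (K y) ((nx (2 ^ (y + 1)))^[w.countP h] 0) ∧ code v = k) → ∀ s, f (x, s) → f (y, s) := by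
    intro x y e s a
    obtain ⟨k, l⟩ := N4 (cv s) ⟨s, rfl⟩
    obtain ⟨w, v, b, d⟩ := t4 (cv s) k (by simp [l])
    obtain ⟨u, _, m, n, o⟩ := e _ ⟨w, _, b, by rwa [d, B], rfl⟩
    rwa [(t3 w v b).2 u (code_inj o ▸ m), d, B] at n
  exact ⟨fun e k j => or_congr_right ⟨k1 x y e k, k1 y x (fun s => (e s).symm) k⟩,
    fun e s => Bool.eq_iff_iff.2 ⟨k2 x y (fun k a => by simpa using (e k 1).1 (.inr a)) s,
      k2 y x (fun k a => by simpa using (e k 1).2 (.inr a)) s⟩⟩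

end Pool.Agent.H.MP_56bf04_lc
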