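import Pool.Agent.Lib.helper21.Queue

namespace Pool.Agent.H.MP_56bf04_lc
open Function Relation Pool.Agent.Lib.helper21.While Pool.Agent.Lib.helper21.Mach Pool.Agent.Lib.helper21.Queue

theorem cm_re {g : ℕ → ℕ → ℕ} (hg : Primrec₂ g) : ∃ (Q : Type) (_ : Finite Q) (M : CM Q) (q : Q),
    ∀ n, Halts (M.step 0) (q, init n) ↔ ∃ k, g n k = 0 := by
  obtain ⟨P, hP⟩ := search_prog hg
  let S : Set (Option (List Prog)) := {x | x ∈ none :: some [] :: (cl P []).map some}
  have h0 : (M0 P).start ∈ S := List.mem_cons_self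
  have h1 : some [P] ∈ S := by
    simp only [S, List.mem_cons, List.mem_map, Set.mem_ofPred_eq]
    exact Or.inr (Or.inr ⟨_, self_mem _ _, rfl⟩)
  have hS : ∀ q ∈ S, ∀ b y, (M0 P).nxt q b = some y → y ∈ S := by
    intro q hq b y h
    simp only [S, List.mem_cons, List.mem_map, Set.mem_ofPred_eq] at hq ⊢
    rcases hq with rfl | rfl | ⟨x, hx, rfl⟩
    · cases b
      · exact Or.inr (Or.inr ⟨_, self_mem _ _, Option.some.inj h⟩)
      · exact Or.inl (Option.some.inj h).symm
    · cases h
    · obtain ⟨z, rfl, h' | rfl⟩ := closed P P _ x hx b y h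
      · exact Or.inr (Or.inr ⟨z, h', rfl⟩)
      · exact Or.inr (Or.inl rfl)
  have hst : ∀ c : S × St, (((M0 P).res S h0).step 0 c).map (Prod.map Subtype.val id) =
      (M0 P).step 0 (c.1.1, c.2) := by
    intro c
    have e : ((M0 P).res S h0).tst 0 c = (M0 P).tst 0 (c.1.1, c.2) := rfl
    simp only [CM.step, e]
    cases h2 : (M0 P).nxt c.1.1 ((M0 P).tst 0 (c.1.1, c.2)) with
    | none => simp [CM.res, h2]
    | some y => simp [CM.res, h2, hS _ c.1.2 _ _ h2]
  refine ⟨S, (List.finite_toSet _).to_subtype, (M0 P).res S h0, ⟨_, h1⟩, fun n => Iff.trans ?_ (hP n)⟩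
  refine (sim _ ((M0 P).step 0) (fun c d => d = (c.1.1, c.2)) ?_ ?_ rfl).trans ⟨fun h => ?_,
    fun ⟨t, h⟩ => halts_of_run P 0 h [] (.stop rfl)⟩
  · rintro c _ c' rfl e
    exact ⟨_, rfl, .single (by rw [← hst, e]; rfl)⟩
  · rintro c _ rfl e
    exact .stop (by rw [← hst, e]; rfl)
  · obtain ⟨t, h, -⟩ := run_of_halts P 0 h _ _ rfl
    exact ⟨t, h⟩

def Ok {Q S : Type} (δ : Q → S → Option Q × List S) (c : Option Q × List S) : Prop :=
  ∀ d, Reach δ c d → (∃ q x t, d = (some q, x :: t)) ∨ d = (none, [])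

theorem qa_re {g : ℕ → ℕ → ℕ} (hg : Primrec₂ g) : ∃ (Q S : Type) (_ : Finite Q) (_ : Finite S)
    (δ : Q → S → Option Q × List S) (q₀ : Q) (a e : S), a ≠ e ∧ ∀ n, Ok δ (some q₀, List.replicate n a ++ [e]) ∧
    (Reach δ (some q₀, List.replicate n a ++ [e]) (none, []) ↔ ∃ k, g n k = 0) := by
  obtain ⟨Q, _, M, q₀, hM⟩ := cm_re hg
  obtain ⟨K, hK⟩ := (Set.finite_range M.reg).bddAbove
  let ρ : Q → Fin (K + 1) := fun q => ⟨M.reg q, Nat.lt_succ_of_le (hK ⟨q, rfl⟩)⟩
  have inv : ∀ n c, Reach (dl M ρ) (some (some (q₀, false)),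
      List.replicate n (some 0) ++ [none]) c → Inv c := by
    intro n c h
    induction h with
    | refl => simp [Lib.helper21.Queue.Inv, List.count_replicate]
    | tail _ e ih => exact ih.step M ρ e
  have good : ∀ c : Option (Option (Q × Bool)) × List (Option (Fin (K + 1))), Inv c →
      (∃ q x t, c = (some q, x :: t)) ∨ c = (none, []) := by
    rintro ⟨_ | _ | q, _ | ⟨x, t⟩⟩ h
    · exact Or.inr rfl
    · cases h
    · obtain ⟨t, h⟩ := h; simp at h
    · exact Or.inl ⟨_, _, _, rfl⟩
    · cases h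
    · exact Or.inl ⟨_, _, _, rfl⟩
  refine ⟨Option (Q × Bool), Option (Fin (K + 1)), inferInstance, inferInstance, dl M ρ,
    some (q₀, false), some 0, none, by simp, fun n => ⟨fun c h => good c (inv n c h), Iff.trans ?_ (hM n)⟩⟩
  rw [cm_sim M ρ (fun _ => rfl) q₀ (init n) (List.replicate n 0) (fun r => ?_),
    List.map_replicate]
  · refine ⟨fun h => halts_of_reach h (.stop rfl), fun h => ?_⟩
    obtain ⟨d, h1, h2⟩ := reach_of_halts h
    rcases good d (inv n d h1) with ⟨q, x, t, rfl⟩ | rfl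
    · cases h2
    · exact h1
  · by_cases hr : r = 0
    · subst hr; simp [init]
    · have : r.val ≠ 0 := fun e => hr (Fin.ext e)
      simp [init, List.count_replicate, this, Ne.symm hr]

def run {C X : Type} (Δ : C → X → Option (C × (ℕ × ℕ) × ℕ × ℕ)) (F : C → Bool) : C → List X → Option (ℕ × ℕ)
  | c, [] => if F c then some (0, 0) else none
  | c, x :: w => (Δ c x).bind fun d => (run Δ F d.1 w).map fun v =>
      (d.2.1.1 + d.2.1.2 * v.1, d.2.2.1 + d.2.2.2 * v.2)

inductive LX (S : Type) | id | hd | sep | l1 | l2 | sym (x : S) deriving Fintype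
inductive LC (Q : Type) | I | G | U | V | B (o : Option Q) deriving Fintype

variable {Q S : Type} (δ : Q → S → Option Q × List S) (q₀ : Q) (a e : S) (b : ℕ) (dg : S → ℕ)

def vl (l : List S) : ℕ := Nat.ofDigits b (l.map dg)

def Dl : LC Q → LX S → Option (LC Q × (ℕ × ℕ) × ℕ × ℕ)
  | .I, .id => some (.I, (0, 1), 0, 1)
  | .I, .sep => some (.G, (0, 1), 0, 1)
  | .I, .l1 => some (.U, (1, 1), 0, 1)
  | .I, .l2 => some (.V, (0, 1), 1, 1)
  | .G, .hd => some (.G, (dg a, b), 0, 1)
  | .G, .sep => some (.B (some q₀), (dg e, b), 0, 1)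
  | .U, .l1 => some (.U, (1, 1), 1, 1)
  | .U, .l2 => some (.U, (1, 1), 0, 1)
  | .V, .l1 => some (.V, (1, 1), 1, 1)
  | .V, .l2 => some (.V, (0, 1), 1, 1)
  | .B (some q), .sym x => some (.B (δ q x).1, (vl b dg (δ q x).2, b ^ (δ q x).2.length), dg x, b)
  | _, _ => none

def Fl : LC Q → Bool | .U => true | .V => true | .B none => true | _ => false

def ish : LX S → Bool | .hd => true | _ => false

theorem vl_app (l r : List S) : vl b dg (l ++ r) = vl b dg l + b ^ l.length * vl b dg r := by
  simp [vl, Nat.ofDigits_append]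

theorem vl_cons (x) (r : List S) : vl b dg (x :: r) = dg x + b * vl b dg r := by simp [vl, Nat.ofDigits_cons]

variable {δ q₀ a e b dg}

theorem vl_inj (h : ∀ x, 0 < dg x ∧ dg x < b) (i : Injective dg) : Injective (vl b dg) := by
  intro l r k
  induction l generalizing r with
  | nil => cases r with
    | nil => rfl
    | cons y r => rw [vl_cons] at k; have := h y; have : vl b dg [] = 0 := rfl; omega
  | cons x l ih => cases r with
    | nil => rw [vl_cons] at k; have := h x; have : vl b dg [] = 0 := rfl; omega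
    | cons y r =>
      rw [vl_cons, vl_cons] at k
      have := congrArg (· % b) k
      simp only [Nat.add_mul_mod_self_left, Nat.mod_eq_of_lt (h _).2] at this
      rw [i this, ih (r := r) (Nat.eq_of_mul_eq_mul_left (by have := h x; omega : 0 < b) (by omega))]

theorem runB {o w v} (h : run (Dl δ q₀ a e b dg) Fl (.B o) w = some v) : w.countP ish = 0 ∧ ∃ s r, v = (vl b dg s,
    vl b dg r) ∧ ∀ t, Ok δ (o, t) → t ++ s = r → Reach δ (o, t) (none, []) := by
  induction w generalizing o v with
  | nil =>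
    cases o <;> simp [run, Fl] at h
    exact ⟨rfl, [], [], h.symm, fun t _ k => by rw [show t = [] by simpa using k]⟩
  | cons x w ih =>
    rcases o with _ | q <;> cases x <;> simp [run, Dl] at h
    obtain ⟨_, _, h, rfl⟩ := h
    obtain ⟨c, s, r, k, l⟩ := ih h
    cases k
    refine ⟨by simpa [ish] using c, _ ++ s, _ :: r, Prod.ext (vl_app ..).symm (vl_cons ..).symm, fun t o k => ?_⟩
    obtain ⟨_, y, t, m⟩ | m := o _ .refl <;> cases m
    obtain ⟨rfl, k⟩ := List.cons.inj k
    exact .head rfl (l _ (fun d m => o d (.head rfl m)) (by simpa using k))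

theorem runB' {c : Option Q × List S} (h : Reach δ c (none, [])) : ∃ w s, w.countP ish = 0 ∧
    run (Dl δ q₀ a e b dg) Fl (.B c.1) w = some (vl b dg s, vl b dg (c.2 ++ s)) := by
  induction h using ReflTransGen.head_induction_on with
  | refl => exact ⟨[], [], rfl, rfl⟩
  | @head c d k _ ih =>
    obtain ⟨w, s, i, j⟩ := ih
    rcases c with ⟨_ | q, _ | ⟨x, t⟩⟩ <;> cases k
    exact ⟨.sym x :: w, (δ q x).2 ++ s, by simpa [ish] using i, by
      simp only [run, Dl, Option.bind_some, j, Option.map_some, List.cons_append, vl_cons]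
      rw [vl_app _ _ (δ q x).2, List.append_assoc]⟩

theorem runH {w v} (h : run (Dl δ q₀ a e b dg) Fl .G w = some v) : ∃ s r, v = (vl b dg (List.replicate (w.countP ish) a
    ++ [e] ++ s), vl b dg r) ∧ ∀ t, Ok δ (some q₀, t) → t ++ s = r → Reach δ (some q₀, t) (none, []) := by
  induction w generalizing v with
  | nil => simp [run, Fl] at h
  | cons x w ih =>
    cases x <;> simp [run, Dl] at h <;> obtain ⟨_, _, h, rfl⟩ := h
    · obtain ⟨s, r, k, l⟩ := ih h
      cases k
      exact ⟨s, r, by simp [ish, List.countP_cons, List.replicate_succ, vl_cons], l⟩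
    · obtain ⟨c, s, r, k, l⟩ := runB h
      cases k
      exact ⟨s, r, by simp [ish, c, vl_cons], l⟩

theorem runU {w v} : (run (Dl δ q₀ a e b dg) Fl .U w = some v → v.2 ≤ v.1) ∧
    (run (Dl δ q₀ a e b dg) Fl .V w = some v → v.1 ≤ v.2) := by
  induction w generalizing v with
  | nil => simp +contextual [run, Fl, eq_comm]
  | cons x w ih =>
    constructor <;> intro h <;> cases x <;> simp [run, Dl] at h <;> obtain ⟨_, _, h, rfl⟩ := h
    exacts [by have := ih.1 h; simp at *; omega, by have := ih.1 h; simp at *; omega,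
      by have := ih.2 h; simp at *; omega, by have := ih.2 h; simp at *; omega]

theorem runU' (m n : ℕ) : ∃ w, w.countP ish = 0 ∧ run (Dl δ q₀ a e b dg) Fl .U w = some (m + n, m) ∧
    run (Dl δ q₀ a e b dg) Fl .V w = some (m, m + n) := by
  induction m with
  | zero => induction n with
    | zero => exact ⟨[], rfl, rfl, rfl⟩
    | succ n ih => exact let ⟨w, i, j, k⟩ := ih; ⟨.l2 :: w, by simpa [ish] using i, by simp [run, Dl, j, k, add_comm]⟩
  | succ m ih => exact let ⟨w, i, j, k⟩ := ih; ⟨.l1 :: w, by simpa [ish] using i, by simp [run, Dl, j, k]; omega⟩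

theorem runI {w v} (h : run (Dl δ q₀ a e b dg) Fl .I w = some (v, v)) :
    ∃ u, u.countP ish = w.countP ish ∧ run (Dl δ q₀ a e b dg) Fl .G u = some (v, v) := by
  induction w with
  | nil => simp [run, Fl] at h
  | cons x w ih =>
    cases x <;> simp [run, Dl] at h
    · simpa [ish, List.countP_cons] using ih h
    · exact ⟨w, by simp [ish], h⟩
    · obtain ⟨_, h, rfl⟩ := h
      simpa using runU.1 h
    · obtain ⟨_, h, rfl⟩ := h
      simpa using runU.2 h

theorem trans_re {g : ℕ → ℕ → ℕ} (hg : Primrec₂ g) : ∃ (C X : Type) (_ : Fintype C) (_ : Fintype X)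
    (Δ : C → X → Option (C × (ℕ × ℕ) × ℕ × ℕ)) (F : C → Bool) (c : C) (i : X) (h : X → Bool), h i = false ∧
    (∀ w, run Δ F c (i :: w) = run Δ F c w) ∧ (∀ m n, m ≠ n → ∃ w, run Δ F c w = some (m, n) ∧ w.countP h = 0) ∧
    (∀ w v, run Δ F c w = some (v, v) → (∃ k, g (w.countP h) k = 0) ∧
      ∀ u, run Δ F c u = some (v, v) → u.countP h = w.countP h) ∧
    ∀ n k, g n k = 0 → ∃ w v, run Δ F c w = some (v, v) ∧ w.countP h = n := by
  obtain ⟨Q, S, _, _, δ, q₀, a, e, ae, H⟩ := qa_re hg
  have := Fintype.ofFinite Q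
  have := Fintype.ofFinite S
  have inj := vl_inj (dg := fun x => Fintype.equivFin S x + 1) (b := Fintype.card S + 1)
    (fun x => ⟨by omega, by have := (Fintype.equivFin S x).2; omega⟩)
    fun x y k => (Fintype.equivFin S).injective (Fin.ext (by simpa using k))
  refine ⟨LC Q, LX S, inferInstance, inferInstance, Dl δ q₀ a e (Fintype.card S + 1) fun x => Fintype.equivFin S x + 1,
    Fl, .I, .id, ish, rfl, fun w => by simp [run, Dl], fun m n k => ?_, fun w v h => ?_, fun n k h => ?_⟩
  · rcases lt_or_gt_of_ne k with k | k <;> obtain ⟨d, rfl⟩ := Nat.exists_eq_add_of_lt k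
    · obtain ⟨w, i, -, j⟩ := runU' m d
      exact ⟨.l2 :: w, by simp only [run, Dl, Option.bind_some]; rw [j]; simp; omega, by simpa [ish] using i⟩
    · obtain ⟨w, i, j, -⟩ := runU' n d
      exact ⟨.l1 :: w, by simp only [run, Dl, Option.bind_some]; rw [j]; simp; omega, by simpa [ish] using i⟩
  · obtain ⟨w', i, j⟩ := runI h
    obtain ⟨s, r, k, l⟩ := runH j
    obtain ⟨k1, k2⟩ := Prod.mk.inj k
    refine ⟨(H _).2.1 (i ▸ l _ (H _).1 (inj (k1.symm.trans k2))), fun u h => ?_⟩
    obtain ⟨u', i', j⟩ := runI h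
    obtain ⟨s', r, k, -⟩ := runH j
    have := inj (k1.symm.trans (Prod.mk.inj k).1)
    rw [← i, ← i']
    generalize w'.countP ish = m, u'.countP ish = n at this
    induction m generalizing n with
    | zero => cases n with
      | zero => rfl
      | succ n => simp [List.replicate_succ, ae.symm] at this
    | succ m ih => cases n with
      | zero => simp [List.replicate_succ, ae] at this
      | succ n => rw [ih n (by simpa [List.replicate_succ] using this)]
  · generalize Fintype.card S + 1 = b, (fun x => (Fintype.equivFin S x : ℕ) + 1) = dg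
    obtain ⟨w, s, i, j⟩ := runB' (q₀ := q₀) (a := a) (e := e) (dg := dg) (b := b) ((H n).2.2 ⟨k, h⟩)
    have : ∀ m, run (Dl δ q₀ a e b dg) Fl .G (List.replicate m .hd ++ .sep :: w) =
        some (vl b dg (List.replicate m a ++ [e] ++ s), vl b dg (List.replicate n a ++ [e] ++ s)) := fun m => by
      induction m with
      | zero => simp only [List.replicate_zero, List.nil_append, run, Dl, Option.bind_some]; rw [j]; simp [vl_cons]
      | succ m ih => simp only [List.replicate_succ, List.cons_append, run, Dl, Option.bind_some, ih]; simp [vl_cons]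
    exact ⟨.sep :: (List.replicate n .hd ++ .sep :: w), _, by simpa [run, Dl] using this n,
      by simp [ish, List.countP_replicate, i]⟩

end Pool.Agent.H.MP_56bf04_lc
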