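import Mathlib

namespace Pool.Agent.H.MP_56bf04_lc
open Function Classical

variable {A B α : Type} {N M : ℕ}

def sp (b : ℕ) (y : ℕ → A) (a : ℕ) (x : ℕ → A) : ℕ → A := fun i => if i < b then y i else x (i - b + a)

def Reg (N : ℕ) (φ : (ℕ → A) → Prop) : Prop := ∃ (Q : Type) (_ : Finite Q) (τ : ℕ → (ℕ → A) → Q), Nat.card Q ≤ N ∧
  (∀ a x y, (∀ i < a, x i = y i) → τ a x = τ a y) ∧ ∀ a b x y, τ a x = τ b y → φ x → φ (sp b y a x)

theorem sp_sp (a b) (x y : ℕ → A) : sp a x b (sp b y a x) = x := by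
  funext i
  simp only [sp]
  split_ifs
  exacts [rfl, by omega, congrArg x (by omega)]

variable {φ ψ : (ℕ → A) → Prop}

theorem Reg.mono (h : Reg N φ) (e : N ≤ M) : Reg M φ :=
  let ⟨Q, i, τ, a, b⟩ := h; ⟨Q, i, τ, a.trans e, b⟩

theorem Reg.not (h : Reg N φ) : Reg N fun x => ¬ φ x :=
  let ⟨Q, i, τ, a, b, c⟩ := h
  ⟨Q, i, τ, a, b, fun m n x y e k l => k (sp_sp m n x y ▸ c n m _ x
    ((b n _ y fun _ e => if_pos e).trans e.symm) l)⟩

theorem Reg.and (h : Reg N φ) (k : Reg M ψ) : Reg (N * M) fun x => φ x ∧ ψ x :=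
  let ⟨Q, _, τ, a, b, c⟩ := h
  let ⟨Q', _, τ', a', b', c'⟩ := k
  ⟨Q × Q', inferInstance, fun n x => (τ n x, τ' n x), by rw [Nat.card_prod]; exact Nat.mul_le_mul a a',
    fun n x y e => Prod.ext (b n x y e) (b' n x y e),
    fun m n x y e k => ⟨c m n x y (congrArg Prod.fst e) k.1, c' m n x y (congrArg Prod.snd e) k.2⟩⟩

theorem Reg.congr (h : Reg N φ) (e : ∀ x, φ x ↔ ψ x) : Reg N ψ := (funext fun x => propext (e x) : φ = ψ) ▸ h

theorem Reg.or (h : Reg N φ) (k : Reg M ψ) : Reg (N * M) fun x => φ x ∨ ψ x :=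
  (h.not.and k.not).not.congr fun _ => by tauto

theorem Reg.imp (h : Reg N φ) (k : Reg M ψ) : Reg (N * M) fun x => φ x → ψ x :=
  (h.and k.not).not.congr fun _ => by tauto

theorem Reg.const (p : Prop) : Reg 1 fun _ : ℕ → A => p :=
  ⟨Unit, inferInstance, fun _ _ => (), by simp, fun _ _ _ _ => rfl, fun _ _ _ _ _ => id⟩

theorem Reg.comap (h : Reg N φ) (f : B → A) : Reg N fun x => φ fun i => f (x i) :=
  let ⟨Q, i, τ, a, b, c⟩ := h
  ⟨Q, i, fun n x => τ n fun i => f (x i), a, fun n x y e => b n _ _ fun i k => by rw [e i k], fun m n x y e k => by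
    convert c m n _ _ e k using 2
    simp only [sp]; split_ifs <;> rfl⟩

theorem Reg.all {ι : Type} [Finite ι] {φ : ι → (ℕ → A) → Prop} (h : ∀ i, Reg N (φ i)) :
    Reg (N ^ Nat.card ι) fun x => ∀ i, φ i x := by
  choose Q f τ a b c using h
  have := Fintype.ofFinite ι
  exact ⟨∀ i, Q i, inferInstance, fun n x i => τ i n x, by
      rw [Nat.card_pi, Nat.card_eq_fintype_card]; exact Finset.prod_le_pow_card _ _ _ fun i _ => a i,
    fun n x y e => funext fun i => b i n x y e, fun m n x y e k i => c i m n x y (congrFun e i) (k i)⟩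

theorem card_set {Q : Type} [Finite Q] (h : Nat.card Q ≤ N) : Nat.card (Set Q) ≤ 2 ^ N := by
  have := Fintype.ofFinite Q
  rw [Nat.card_eq_fintype_card] at *
  rw [Fintype.card_set]
  exact Nat.pow_le_pow_right two_pos h

theorem Reg.unb {φ : (ℕ → A × B) → Prop} (h : Reg N φ) (p : ℕ → (ℕ → B) → Prop)
    (hp : ∀ m a b y y', p (m + a) y → p m (sp b y' a y)) :
    Reg (2 ^ N) fun x => ∀ m, ∃ y : ℕ → B, (φ fun i => (x i, y i)) ∧ p m y := by
  obtain ⟨Q, _, τ, a, b, c⟩ := h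
  refine ⟨Set Q, inferInstance, fun n x => Set.range fun y : ℕ → B => τ n fun i => (x i, y i), card_set a,
    fun n x y e => congrArg _ (funext fun z => b n _ _ fun i k => by rw [e i k]), fun m n x x' e k t => ?_⟩
  obtain ⟨y, k, l⟩ := k (t + m)
  obtain ⟨y', e⟩ := e.le ⟨y, rfl⟩
  refine ⟨sp n y' m y, ?_, hp _ _ _ _ _ l⟩
  convert c m n _ _ e.symm k using 2
  simp only [sp]; split_ifs <;> rfl

theorem Reg.ex {φ : (ℕ → A × B) → Prop} (h : Reg N φ) :
    Reg (2 ^ N) fun x => ∃ y : ℕ → B, φ fun i => (x i, y i) :=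
  (h.unb (fun _ _ => True) fun _ _ _ _ _ => id).congr fun _ => by simp

theorem Reg.pos (p : A → Prop) : Reg 2 fun x : ℕ → A => ∃ i, p (x i) :=
  ⟨Prop, inferInstance, fun n x => ∃ i < n, p (x i), by simp,
    fun n x y e => propext (exists_congr fun i => and_congr_right fun k => by rw [e i k]),
    fun m n x y e ⟨i, k⟩ => by
      by_cases l : i < m
      · obtain ⟨j, a, b⟩ := e.mp ⟨i, l, k⟩
        exact ⟨j, by rwa [sp, if_pos a]⟩
      · exact ⟨i - m + n, by rwa [sp, if_neg (by omega), show i - m + n - n + m = i by omega]⟩⟩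

def wd (w : List α) : ℕ → Option α := fun i => w[i]?

theorem wd_inj {u v : List α} (h : wd u = wd v) : u = v := List.ext_getElem? (congrFun h)

theorem sp_wd {a b} {v w : List α} {y} (h1 : v.length ≤ b) (h2 : ∀ i < b, y i = v[i]?)
    (h3 : v.length < b → w.length ≤ a) : sp b y a (wd w) = wd (v ++ w.drop a) := by
  funext i
  simp only [sp, wd, List.getElem?_append, List.getElem?_drop]
  split_ifs with c d d
  · exact h2 i c
  · rw [h2 i c, List.getElem?_eq_none (by omega), List.getElem?_eq_none (by omega)]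
  · omega
  · by_cases e : v.length < b
    · rw [List.getElem?_eq_none (by omega), List.getElem?_eq_none (by omega)]
    · congr 1; omega

theorem Reg.word {Q : Type} [Finite Q] (h : Nat.card Q ≤ N) {L : List α → Prop} (σ : List α → Q)
    (k : ∀ u v w, σ u = σ v → L (u ++ w) → L (v ++ w)) : Reg (2 ^ (2 * N)) fun x => ∃ w, x = wd w ∧ L w := by
  refine ⟨Set (Prop × Q), inferInstance, fun a x => {t | ∃ u : List α, u.length ≤ a ∧ (∀ i < a, x i = u[i]?) ∧
    t = (u.length < a, σ u)}, card_set (by simpa using h), fun n x y e => ?_, ?_⟩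
  · ext t
    exact exists_congr fun u => and_congr_right' (and_congr_left' (forall₂_congr fun i k => by rw [e i k]))
  · rintro a b _ y e ⟨w, rfl, l⟩
    obtain ⟨v, v1, v2, v3⟩ := e.le ⟨w.take a, by simp, fun i c => by simp [wd, c], rfl⟩
    obtain ⟨v3, v4⟩ := Prod.mk.inj v3
    refine ⟨_, sp_wd v1 v2 fun c => ?_, k _ _ _ v4 (by simpa using l)⟩
    have := v3.mpr c
    simp at this; omega

theorem Reg.pump (h : Reg N φ) {z} (k : φ z) (n : ℕ) :
    ∃ a b, n ≤ a ∧ a < b ∧ b ≤ n + N ∧ φ (sp a z b z) ∧ φ (sp b z a z) := by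
  obtain ⟨Q, _, τ, a, -, c⟩ := h
  have := Fintype.ofFinite Q
  obtain ⟨i, j, e, l⟩ := Fintype.exists_ne_map_eq_of_card_lt (fun i : Fin (N + 1) => τ (n + i) z)
    (by simpa using Nat.lt_succ_of_le a)
  have := i.2; have := j.2
  rcases lt_or_gt_of_ne (Fin.val_ne_of_ne e) with e | e
  · exact ⟨n + i, n + j, by omega, by omega, by omega, c _ _ _ _ l.symm k, c _ _ _ _ l k⟩
  · exact ⟨n + j, n + i, by omega, by omega, by omega, c _ _ _ _ l k, c _ _ _ _ l.symm k⟩

theorem sp_self (a b) (w : List α) (h : w.length < a → w.length ≤ b) :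
    sp a (wd w) b (wd w) = wd (w.take a ++ w.drop b) :=
  sp_wd (by simp) (fun i c => by simp [wd, c]) fun c => h (by simp at c; omega)

theorem Reg.short {ι : Type} [Fintype ι] {φ : (ℕ → ι → Option α) → Prop} (h : Reg N φ) (n : ℕ) (x : ι → List α)
    (k : φ fun t i => wd (x i) t) : ∃ y : ι → List α, (φ fun t i => wd (y i) t) ∧ ∀ i, (y i).length ≤ n + N ∧
      ((x i).length ≤ n → y i = x i) ∧ (n ≤ (x i).length → n ≤ (y i).length) := by
  induction e : ∑ i, (x i).length using Nat.strong_induction_on generalizing x with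
  | _ s ih =>
  by_cases c : ∀ i, (x i).length ≤ n + N
  · exact ⟨x, k, fun i => ⟨c i, fun _ => rfl, id⟩⟩
  push Not at c
  obtain ⟨j, c⟩ := c
  obtain ⟨a, b, a1, a2, a3, a4, -⟩ := h.pump k n
  obtain ⟨y, y1, y2⟩ := ih _ (e ▸ Finset.sum_lt_sum (fun i _ => by simp; omega) ⟨j, Finset.mem_univ _, by simp; omega⟩)
    (fun i => (x i).take a ++ (x i).drop b) (by
      convert a4 using 3 with t i
      rw [← sp_self a b _ (by omega)]
      simp only [sp]; split_ifs <;> rfl) rfl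
  refine ⟨y, y1, fun i => ⟨(y2 i).1, fun c => ?_, fun c => (y2 i).2.2 (by simp; omega)⟩⟩
  have : (x i).take a ++ (x i).drop b = x i := by
    rw [List.take_of_length_le (by omega), List.drop_of_length_le (by omega), List.append_nil]
  exact ((y2 i).2.1 (by rwa [this])).trans this

def rch (T : List (ℕ × α × ℕ)) : ℕ → List α → ℕ → Prop
  | q, [], p => q = p
  | q, a :: w, p => ∃ r, (q, a, r) ∈ T ∧ rch T r w p

def acc (T : List (ℕ × α × ℕ) × ℕ × List ℕ) (w : List α) : Prop := ∃ p ∈ T.2.2, rch T.1 T.2.1 w p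

theorem rch_append (T : List (ℕ × α × ℕ)) (q u v p) : rch T q (u ++ v) p ↔ ∃ r, rch T q u r ∧ rch T r v p := by
  induction u generalizing q with
  | nil => simp [rch]
  | cons a u ih => simp only [List.cons_append, rch, ih]; tauto

theorem rch_mem {T : List (ℕ × α × ℕ)} {q u p} (h : rch T q u p) :
    p ∈ q :: T.map (·.2.2) ∧ ∀ a ∈ u, a ∈ T.map (·.2.1) := by
  induction u generalizing q with
  | nil => simp [show q = p from h]
  | cons a u ih =>
    obtain ⟨r, k, h⟩ := h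
    refine ⟨.tail _ ((List.mem_cons.1 (ih h).1).elim (fun e => List.mem_map.2 ⟨_, k, e.symm⟩) id),
      List.forall_mem_cons.2 ⟨List.mem_map_of_mem k, (ih h).2⟩⟩

theorem Reg.acc (T : List (ℕ × α × ℕ) × ℕ × List ℕ) (h : T.1.length < N) :
    Reg (2 ^ (2 * 2 ^ N)) fun x => ∃ w, x = wd w ∧ acc T w := by
  refine Reg.word (Q := Set {q : ℕ // q ∈ (T.2.1 :: T.1.map fun t : ℕ × α × ℕ => t.2.2).toFinset}) (card_set ?_)
    (fun u => {q | rch T.1 T.2.1 u q}) fun u v w e ⟨p, k, l⟩ => ?_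
  · rw [Nat.card_eq_fintype_card, Fintype.card_coe]
    exact (List.toFinset_card_le _).trans (by simpa using h)
  · obtain ⟨r, a, b⟩ := (rch_append ..).1 l
    exact ⟨p, k, (rch_append ..).2 ⟨r, (Set.ext_iff.1 e ⟨r, List.mem_toFinset.2 (rch_mem a).1⟩).1 a, b⟩⟩

end Pool.Agent.H.MP_56bf04_lc
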