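import Pool.Agent.H.MP_56bf04_lc.Dec
import Pool.Agent.H.MP_56bf04_lc.Que

namespace Pool.Agent.H.MP_56bf04_lc
open Function Classical Finset

def und (z : List ℕ) : List ℕ := z.map fun a => a.unpair.1

theorem wa {S X : Type} [Fintype S] [Fintype X] (m : S → X → S → ℕ) (N : S → List X → ℕ) (f : S → Prop)
    (h0 : ∀ s, N s [] = if f s then 1 else 0) (h1 : ∀ s x w, N s (x :: w) = ∑ r, m s x r * N r w) :
    ∃ (T : List (ℕ × ℕ × ℕ)) (F : List ℕ) (eS : S → ℕ) (eX : X → ℕ), Injective eX ∧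
      (∀ s z, acc (T, eS s, F) z → ∃ w : List X, und z = w.map eX) ∧
      ∀ s w, ∃ Z : Finset (List ℕ), #Z = N s w ∧ ∀ z, z ∈ Z ↔ acc (T, eS s, F) z ∧ und z = w.map eX := by
  obtain ⟨eS, iS⟩ := Countable.exists_injective_nat S
  obtain ⟨eX, iX⟩ := Countable.exists_injective_nat X
  obtain ⟨T, hT⟩ : ∃ T : List (ℕ × ℕ × ℕ), ∀ t, t ∈ T ↔ ∃ s x r, ∃ c < m s x r,
      (eS s, (eX x).pair ((eS r).pair c), eS r) = t :=
    ⟨(univ.biUnion fun u : S × X × S => (range (m u.1 u.2.1 u.2.2)).image fun c =>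
      (eS u.1, (eX u.2.1).pair ((eS u.2.2).pair c), eS u.2.2)).toList, fun t => by simp⟩
  have ac : ∀ s a z F, acc (T, eS s, F) (a :: z) ↔ ∃ x r, ∃ c < m s x r, (eX x).pair ((eS r).pair c) = a ∧
      acc (T, eS r, F) z := fun s a z F => by
    simp only [acc, rch, hT, Prod.mk.injEq, iS.eq_iff]
    exact ⟨fun ⟨p, k, _, ⟨_, x, r, c, l, rfl, e, rfl⟩, n⟩ => ⟨x, r, c, l, e, p, k, n⟩,
      fun ⟨x, r, c, l, e, p, k, n⟩ => ⟨p, k, _, ⟨_, x, r, c, l, rfl, e, rfl⟩, n⟩⟩
  refine ⟨T, ((univ.filter f).image eS).toList, eS, eX, iX, fun s z h => ?_, fun s w => ?_⟩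
  · induction z generalizing s with
    | nil => exact ⟨[], rfl⟩
    | cons a z ih =>
      obtain ⟨x, r, c, -, rfl, k⟩ := (ac ..).1 h
      obtain ⟨w, e⟩ := ih r k
      exact ⟨x :: w, by simpa [und] using e⟩
  induction w generalizing s with
  | nil =>
    refine ⟨if f s then {[]} else ∅, by rw [h0]; split_ifs <;> rfl, fun z => ?_⟩
    cases z <;> split_ifs <;> simp [und, acc, rch, iS.eq_iff, *]
  | cons x w ih =>
    choose Z Z1 Z2 using ih
    refine ⟨(univ.sigma fun r => range (m s x r) ×ˢ Z r).map ⟨fun t => (eX x).pair ((eS t.1).pair t.2.1) :: t.2.2, ?_⟩,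
      by simp [h1, Z1], fun z => ?_⟩
    · rintro ⟨r, c, z⟩ ⟨r', c', z'⟩ e
      simp only [List.cons.injEq, Nat.pair_eq_pair, iS.eq_iff, true_and] at e
      obtain ⟨⟨rfl, rfl⟩, rfl⟩ := e
      rfl
    · simp only [mem_map, mem_sigma, mem_univ, true_and, mem_product, mem_range, Z2]
      constructor
      · rintro ⟨⟨r, c, z⟩, ⟨a, b, d⟩, rfl⟩
        exact ⟨(ac ..).2 ⟨x, r, c, a, rfl, b⟩, congrArg₂ List.cons (congrArg Prod.fst (Nat.unpair_pair ..)) d⟩
      · rintro ⟨a, b⟩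
        cases z with
        | nil => simp [und] at b
        | cons _ z =>
          obtain ⟨y, r, c, k, rfl, l⟩ := (ac ..).1 a
          simp only [und, List.map_cons, Nat.unpair_pair, List.cons.injEq, iX.eq_iff] at b
          obtain ⟨rfl, b⟩ := b
          exact ⟨⟨r, c, z⟩, ⟨k, l, b⟩, rfl⟩

def code (v : ℕ × ℕ) : ℕ := (v.1 + v.2) ^ 2 + v.1 + 1

theorem code_inj : Injective code := by
  rintro ⟨a, b⟩ ⟨c, d⟩ h
  simp only [code] at h
  have : a + b = c + d := by
    by_contra n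
    rcases lt_or_gt_of_ne n with n | n <;> nlinarith [Nat.pow_le_pow_left (Nat.succ_le_of_lt n) 2]
  rw [this] at h
  exact Prod.ext (by simp; omega) (by simp; omega)

theorem rel_und {l : PL} {L : List ℕ} (h : ∀ t, t ∈ l.2.1 ↔ ∃ a ∈ L, ∃ b ∈ L, a.unpair.1 = b.unpair.1 ∧
    (0, (some a, some b), 0) = t) (k : l.2.2 = (0, [0])) {u v} (hu : ∀ a ∈ u, a ∈ L) (hv : ∀ a ∈ v, a ∈ L) :
    rel l u v ↔ und u = und v := by
  have : ∀ w, rch l.2.1 0 w 0 ↔ ∀ t ∈ w, ∃ a ∈ L, ∃ b ∈ L, a.unpair.1 = b.unpair.1 ∧ (some a, some b) = t := fun w => by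
    induction w with
    | nil => simp [rch]
    | cons t w ih =>
      simp only [rch, h, List.forall_mem_cons, ← ih]
      exact ⟨fun ⟨_, ⟨a, i, b, j, c, e⟩, d⟩ => by cases e; exact ⟨⟨a, i, b, j, c, rfl⟩, d⟩,
        fun ⟨⟨a, i, b, j, c, e⟩, d⟩ => ⟨0, ⟨a, i, b, j, c, by rw [e]⟩, d⟩⟩
  simp only [rel, acc, k, List.mem_singleton, exists_eq_left, this, conv, List.forall_mem_map, List.mem_range, und]
  constructor
  · intro e
    refine List.ext_getElem? fun i => ?_
    by_cases c : i < max u.length v.length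
    · obtain ⟨a, -, b, -, d, e⟩ := e i c
      simp [← (Prod.mk.inj e).1, ← (Prod.mk.inj e).2, d]
    · rw [List.getElem?_eq_none (by simp; omega), List.getElem?_eq_none (by simp; omega)]
  · intro e i c
    have := congrArg List.length e
    simp only [List.length_map] at this
    have c1 : i < u.length := by omega
    have c2 : i < v.length := by omega
    exact ⟨u[i], hu _ (by simp), v[i], hv _ (by simp), by simpa [c1, c2] using congrArg (·[i]?) e, by simp⟩

theorem struct {C X : Type} [Fintype C] [Fintype X] (Δ : C → X → Option (C × (ℕ × ℕ) × ℕ × ℕ)) (F : C → Bool) (c : C)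
    (i : X) (h : X → Bool) (hi : h i = false) (id : ∀ w, run Δ F c (i :: w) = run Δ F c w) :
    ∃ (T : List (ℕ × ℕ × ℕ) × ℕ × List ℕ) (HL : List ℕ) (T' : List (ℕ × (Option ℕ × Option ℕ) × ℕ)),
      ∀ (l : PL) (B : ℕ → Prop), (∀ z, z ∈ dom l ↔ acc T z ∧ B ((und z).countP (· ∈ HL))) → (∀ t, t ∈ l.2.1 ↔ t ∈ T') →
      l.2.2 = (0, [0]) → Eqv (dom l) (rel l) ∧ ∀ k j, Cnt (dom l) (rel l) k j ↔
        j = 0 ∨ ∃ w v, run Δ F c w = some v ∧ B (w.countP h) ∧ code v = k := by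
  let mm : (ℕ × ℕ) × ℕ × ℕ → Fin 3 → Fin 3 → ℕ := fun d => ![![1, 0, 0], ![d.1.1, d.1.2, 0], ![d.2.1, 0, d.2.2]]
  let u : ℕ × ℕ → Fin 3 → ℕ := fun v => ![1, v.1, v.2]
  let N : Option (C × Fin 3 × Fin 3) → List X → ℕ := fun s w => s.elim
    (w.casesOn 0 fun x w => if x = i then (run Δ F c w).elim 0 code else 0)
    fun s => (run Δ F s.1 w).elim 0 fun v => u v s.2.1 * u v s.2.2
  obtain ⟨T, G, eS, eX, iX, a1, a2⟩ := wa (fun s x r => r.elim 0 fun r => s.elim
    (if x = i ∧ r.1 = c then ![![1, 1, 0], ![0, 1, 1], ![0, 1, 1]] r.2.1 r.2.2 else 0)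
    fun s => (Δ s.1 x).elim 0 fun d => if r.1 = d.1 then mm d.2 s.2.1 r.2.1 * mm d.2 s.2.2 r.2.2 else 0) N
    (fun s => ∃ r, F r ∧ s = some (r, 0, 0)) (by
      rintro (_ | ⟨r, j, k⟩)
      · simp [N]
      · by_cases e : F r <;> fin_cases j <;> fin_cases k <;> simp [N, run, e, u]) (by
      rintro (_ | ⟨r, j, k⟩) x w
      · by_cases e : x = i <;> simp [N, e, Fintype.sum_option, Fintype.sum_prod_type]
        cases run Δ F c w <;> simp [Fin.sum_univ_three, u, code]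
        ring
      · simp only [N, run, Option.elim_some, Fintype.sum_option, Fintype.sum_prod_type]
        cases Δ r x with
        | none => simp
        | some d =>
          simp only [Option.bind_some, Option.elim_some, ite_mul, zero_mul, sum_ite_irrel, sum_const_zero, sum_ite_eq',
            mem_univ, if_true, Option.elim_none, zero_add]
          cases run Δ F d.1 w <;> fin_cases j <;> fin_cases k <;> simp [Fin.sum_univ_three, u, mm] <;> ring)
  refine ⟨(T, eS none, G), ((univ.filter (h · = true)).image eX).toList, (T.map (·.2.1)).flatMap fun a =>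
    ((T.map (·.2.1)).filter fun b => a.unpair.1 = b.unpair.1).map fun b => (0, (some a, some b), 0),
    fun l B h1 h2 h3 => ?_⟩
  have r : ∀ u ∈ dom l, ∀ v ∈ dom l, rel l u v ↔ und u = und v := fun u a v b =>
    rel_und (L := T.map (·.2.1)) (fun t => by simp only [h2, List.mem_flatMap, List.mem_map (b := t), List.mem_filter,
      decide_eq_true_eq, and_assoc]) h3 (let ⟨⟨_, _, e⟩, _⟩ := (h1 u).1 a; (rch_mem e).2)
      (let ⟨⟨_, _, e⟩, _⟩ := (h1 v).1 b; (rch_mem e).2)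
  have cn : ∀ w : List X, (w.map eX).countP (· ∈ ((univ.filter (h · = true)).image eX).toList) = w.countP h :=
    fun w => by rw [List.countP_map]; congr 1; funext x; simp [iX.eq_iff]
  have sz : ∀ z ∈ dom l, ∀ w, und z = w.map eX → {y | y ∈ dom l ∧ rel l z y}.ncard = N none w ∧ N none w ≠ 0 :=
    fun z a w e => by
      obtain ⟨Z, Z1, Z2⟩ := a2 none w
      refine ⟨?_, Z1 ▸ card_ne_zero.2 ⟨z, (Z2 z).2 ⟨((h1 z).1 a).1, e⟩⟩⟩
      rw [← Z1, ← Set.ncard_coe_finset]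
      congr 1
      ext y
      refine ⟨fun ⟨b, k⟩ => (Z2 y).2 ⟨((h1 y).1 b).1, ((r z a y b).1 k).symm.trans e⟩, fun b => ?_⟩
      obtain ⟨b, k⟩ := (Z2 y).1 b
      have : y ∈ dom l := (h1 y).2 ⟨b, k ▸ e ▸ ((h1 z).1 a).2⟩
      exact ⟨this, (r z a y this).2 (e.trans k.symm)⟩
  refine ⟨⟨fun u a => (r u a u a).2 rfl, fun u a v b e => (r v b u a).2 ((r u a v b).1 e).symm,
    fun u a v b w d e f => (r u a w d).2 (((r u a v b).1 e).trans ((r v b w d).1 f))⟩, fun k j => ⟨?_, ?_⟩⟩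
  · rintro ⟨x, b, -⟩
    refine or_iff_not_imp_left.2 fun n => ?_
    obtain ⟨b, d⟩ := b ⟨0, by omega⟩
    obtain ⟨w, e⟩ := a1 _ _ ((h1 _).1 b).1
    obtain ⟨s, t⟩ := sz _ b w e
    have := ((h1 _).1 b).2
    rw [e, cn] at this
    rcases w with _ | ⟨y, w⟩
    · exact (t rfl).elim
    by_cases q : y = i
    · cases o : run Δ F c w <;> simp [N, q, o] at s t
      exact ⟨w, _, o, by simpa [q, hi] using this, s.symm.trans d⟩
    · simp [N, q] at t
  · rintro (rfl | ⟨w, v, b, d, rfl⟩)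
    · exact ⟨Fin.elim0, by simp, by simp⟩
    have : ∀ n, ∃ z ∈ dom l, und z = (i :: (List.replicate n i ++ w)).map eX ∧
        N none (i :: (List.replicate n i ++ w)) = code v := fun n => by
      have e : N none (i :: (List.replicate n i ++ w)) = code v := by
        have : run Δ F c (List.replicate n i ++ w) = some v := by induction n <;> simp [List.replicate_succ, *]
        simp [N, this]
      obtain ⟨Z, Z1, Z2⟩ := a2 none (i :: (List.replicate n i ++ w))
      obtain ⟨z, k⟩ := card_ne_zero.1 (Z1.trans_ne (e.trans_ne (Nat.succ_ne_zero _)))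
      obtain ⟨k, o⟩ := (Z2 z).1 k
      exact ⟨z, (h1 z).2 ⟨k, by rw [o, cn]; simpa [hi, List.countP_replicate] using d⟩, o, e⟩
    choose z z1 z2 z3 using this
    refine ⟨fun n => z n, fun n => ⟨z1 n, (sz _ (z1 n) _ (z2 n)).1.trans (z3 n)⟩, fun m n e k => e (Fin.ext ?_)⟩
    simpa [z2] using congrArg List.length ((r _ (z1 m) _ (z1 n)).1 k)

end Pool.Agent.H.MP_56bf04_lc
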